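import Mathlib
import Pool.Agent.W42.RL.Fin

set_option autoImplicit false
set_option linter.unusedSectionVars false
set_option linter.unusedVariables false

/-!
Definitions and statements of the parts of the general theorem: multiple mixing of automorphisms
which normalise an action of a connected Lie group.
-/

namespace Pool.Agent.W42.RG

open Finset Filter Topology MeasureTheory Pool.Agent.W42.RN Pool.Agent.W42.RL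

/-! ### A. Isometric actions on a metric space: the Mautner phenomenon -/

/-- isometric action of a Lie group in exponential coordinates: `V` is the Lie algebra, `br` its
bracket, `Φ Y` the action of `exp Y` -/
structure Iso {V M : Type} [NormedAddCommGroup V] [NormedSpace ℝ V] [MetricSpace M]
    (br : V →L[ℝ] V →L[ℝ] V) (Φ : V → M → M) : Prop where
  iso : ∀ (Y : V) (p q : M), dist (Φ Y p) (Φ Y q) = dist p q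
  zero : ∀ p : M, Φ 0 p = p
  line : ∀ (Y : V) (s t : ℝ) (p : M), Φ ((s + t) • Y) p = Φ (s • Y) (Φ (t • Y) p)
  conj : ∀ (Y Z : V) (p : M), Φ Y (Φ Z p) = Φ (NormedSpace.exp (br Y) Z) (Φ Y p)
  cont : ∀ p : M, Continuous fun Y => Φ Y p
  loc : ∃ C ρ : ℝ, 0 < ρ ∧ ∀ Y Z : V, ‖Y‖ ≤ ρ → ‖Z‖ ≤ ρ →
    ∃ U : V, ‖U - Y - Z‖ ≤ C * ‖br Y Z‖ ∧ ∀ p : M, Φ Y (Φ Z p) = Φ U p
  alt : ∀ Y : V, br Y Y = 0

/-- the Lie algebra of the stabiliser of `p` -/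
def st {V M : Type} [NormedAddCommGroup V] [NormedSpace ℝ V] (Φ : V → M → M) (p : M) : Set V :=
  {Z | ∀ t : ℝ, Φ (t • Z) p = p}

def S_SUB : Prop := ∀ (V M : Type) [NormedAddCommGroup V] [NormedSpace ℝ V] [FiniteDimensional ℝ V]
  [MetricSpace M] (br : V →L[ℝ] V →L[ℝ] V) (Φ : V → M → M), Iso br Φ → ∀ p : M,
  ∃ S : Submodule ℝ V, (S : Set V) = st Φ p

def S_SMALL : Prop := ∀ (V M : Type) [NormedAddCommGroup V] [NormedSpace ℝ V]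
  [FiniteDimensional ℝ V] [MetricSpace M] (br : V →L[ℝ] V →L[ℝ] V) (Φ : V → M → M), Iso br Φ →
  ∀ p : M, ∃ ρ : ℝ, 0 < ρ ∧ ∀ Y : V, ‖Y‖ ≤ ρ → Φ Y p = p → Y ∈ st Φ p

def S_STAY : Prop := ∀ (V M : Type) [NormedAddCommGroup V] [NormedSpace ℝ V]
  [FiniteDimensional ℝ V] [MetricSpace M] (br : V →L[ℝ] V →L[ℝ] V) (Φ : V → M → M), Iso br Φ →
  ∀ (p : M) (W : V), W ∈ st Φ p → ∀ r : ℝ, 0 < r → ∃ δ : ℝ, 0 < δ ∧ ∀ X : V, ‖X‖ ≤ δ →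
    ∀ t : ℝ, ∃ Y : V, ‖Y‖ ≤ r ∧ Φ (t • W) (Φ X p) = Φ Y p

def S_REC : Prop := ∀ (V M : Type) [NormedAddCommGroup V] [NormedSpace ℝ V]
  [FiniteDimensional ℝ V] [MetricSpace M] (br : V →L[ℝ] V →L[ℝ] V) (Φ : V → M → M), Iso br Φ →
  ∀ (p ψ : M) (W : V) (r : ℝ), (∀ t : ℝ, ∃ Y : V, ‖Y‖ ≤ r ∧ Φ (t • W) ψ = Φ Y p) →
    ∃ t : ℕ → ℝ, Tendsto t atTop atTop ∧ Tendsto (fun n => Φ (t n • W) ψ) atTop (𝓝 ψ)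

def S_NORM : Prop := ∀ (V M : Type) [NormedAddCommGroup V] [NormedSpace ℝ V]
  [FiniteDimensional ℝ V] [MetricSpace M] (br : V →L[ℝ] V →L[ℝ] V) (Φ : V → M → M), Iso br Φ →
  ∀ (ψ : M) (W : V) (t : ℕ → ℝ), Tendsto t atTop atTop →
    Tendsto (fun n => Φ (t n • W) ψ) atTop (𝓝 ψ) →
    (∃ c : ℕ, ∀ Z : V, ((br W) ^ c) Z ∈ st Φ ψ) → ∀ Z ∈ st Φ ψ, br W Z ∈ st Φ ψ

def S_FIN : Prop := ∀ (V M : Type) [NormedAddCommGroup V] [NormedSpace ℝ V]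
  [FiniteDimensional ℝ V] [MetricSpace M] (br : V →L[ℝ] V →L[ℝ] V) (Φ : V → M → M), Iso br Φ →
  ∀ (p : M) (W : V), W ∈ st Φ p →
    (∃ δ : ℝ, 0 < δ ∧ ∀ X : V, ‖X‖ ≤ δ → ∀ Z ∈ st Φ (Φ X p), br W Z ∈ st Φ (Φ X p)) →
    ∃ δ : ℝ, 0 < δ ∧ ∀ X : V, ‖X‖ ≤ δ → W ∈ st Φ (Φ X p)

def S_MAUT : Prop := ∀ (V M : Type) [NormedAddCommGroup V] [NormedSpace ℝ V]
  [FiniteDimensional ℝ V] [MetricSpace M] (br : V →L[ℝ] V →L[ℝ] V) (Φ : V → M → M), Iso br Φ →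
  ∀ (p : M) (K : Submodule ℝ V), (∀ Y : V, ∀ Z ∈ K, br Y Z ∈ K) → (∀ Z ∈ K, Φ Z p = p) →
  ∀ W : V, W ∈ st Φ p → (∃ c : ℕ, ∀ Y : V, ((br W) ^ c) Y ∈ K) →
  ∃ S : Submodule ℝ V, (∀ Y : V, ∀ Z ∈ S, br Y Z ∈ S) ∧ W ∈ S ∧ K ≤ S ∧ ∀ Z ∈ S, Φ Z p = p

/-! ### B. Linear algebra -/

/-- vectors which are exponentially contracted by the iterates of `f` -/
def ctr {V : Type} [AddCommGroup V] [Module ℝ V] [TopologicalSpace V] (f : V → V) : Set V :=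
  {Y | ∃ r : ℝ, 1 < r ∧ Tendsto (fun n : ℕ => r ^ n • f^[n] Y) atTop (𝓝 0)}

/-- `A - 1` -/
def nA {V : Type} [AddCommGroup V] [Module ℝ V] (A : V ≃ₗ[ℝ] V) : Module.End ℝ V :=
  (A : V →ₗ[ℝ] V) - 1

/-- the vectors `A Y - Y`, where `(A - 1) ^ m Y = 0` for some `m` -/
def uni {V : Type} [AddCommGroup V] [Module ℝ V] (A : V ≃ₗ[ℝ] V) : Set V :=
  {Z | ∃ (Y : V) (m : ℕ), ((nA A) ^ m) Y = 0 ∧ Z = A Y - Y}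

def S_DER : Prop := ∀ (V : Type) [AddCommGroup V] [Module ℝ V] [FiniteDimensional ℝ V]
  [TopologicalSpace V] [IsTopologicalAddGroup V] [ContinuousSMul ℝ V] [T2Space V]
  (N : Module.End ℝ V) (S : Submodule ℝ V) (Z : V) (s₀ : ℝ), 0 < s₀ →
  (∀ s : ℝ, |s| ≤ s₀ → ∃ Z' ∈ S,
    HasSum (fun l : ℕ => ((l.factorial : ℝ)⁻¹) • ((s • N) ^ l) Z) Z') → N Z ∈ S

def S_LA : Prop := ∀ (V : Type) [AddCommGroup V] [Module ℝ V] [FiniteDimensional ℝ V]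
  [TopologicalSpace V] [IsTopologicalAddGroup V] [ContinuousSMul ℝ V] [T2Space V]
  (A : V ≃ₗ[ℝ] V) (Y : V), ∃ Y₁ Y₂ Y₃ : V, Y = Y₁ + Y₂ + Y₃ ∧ Y₁ ∈ ctr A.symm ∧ Y₃ ∈ ctr A ∧
    ∃ d : ℕ, Tendsto (fun n : ℕ => (((n : ℝ) + 1) ^ d)⁻¹ • A^[n] Y₂) atTop (𝓝 0) ∧
      Tendsto (fun n : ℕ => (((n : ℝ) + 1) ^ d)⁻¹ • A.symm^[n] Y₂) atTop (𝓝 0)

def S_JAC : Prop := ∀ (V : Type) [AddCommGroup V] [Module ℝ V] [FiniteDimensional ℝ V]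
  (a c x : Module.End ℝ V), c = a * x - x * a → a * c = c * a → IsNilpotent c

def S_POLY : Prop := ∀ (V : Type) [AddCommGroup V] [Module ℝ V] (A : V ≃ₗ[ℝ] V)
  (K : Submodule ℝ V), (∀ Y, A Y ∈ K ↔ Y ∈ K) → ∀ (Y : V) (d : ℕ), 1 ≤ d →
  ((nA A) ^ (d + 1)) Y ∈ K →
  ∃ (q : ℕ → ℤ → ℝ) (C : ℝ), (∀ l < d, ∀ n : ℤ, |q l n| ≤ C * (1 + |(n : ℝ)|) ^ (d - 1)) ∧
    (∀ n : ℤ, |q d n - (n : ℝ) ^ d / d.factorial| ≤ C * (1 + |(n : ℝ)|) ^ (d - 1)) ∧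
    ∀ n : ℤ, (A ^ n) Y - ∑ l ∈ range (d + 1), q l n • ((nA A) ^ l) Y ∈ K

def S_NILW : Prop := ∀ (𝔤 : Type) [LieRing 𝔤] [LieAlgebra ℝ 𝔤] [FiniteDimensional ℝ 𝔤]
  (A : 𝔤 ≃ₗ[ℝ] 𝔤), (∀ Y Z : 𝔤, A ⁅Y, Z⁆ = ⁅A Y, A Z⁆) → ∀ K : LieIdeal ℝ 𝔤,
  (∀ Y, A Y ∈ K ↔ Y ∈ K) → ∀ V W : 𝔤, W = A V - V → A W - W ∈ K →
  ∃ c : ℕ, ∀ Y, ((LieAlgebra.ad ℝ 𝔤 W) ^ c) Y ∈ K

def S_IDE : Prop := ∀ (𝔤 : Type) [LieRing 𝔤] [LieAlgebra ℝ 𝔤] [FiniteDimensional ℝ 𝔤]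
  [TopologicalSpace 𝔤] [IsTopologicalAddGroup 𝔤] [ContinuousSMul ℝ 𝔤] [T2Space 𝔤]
  (A : 𝔤 ≃ₗ[ℝ] 𝔤), (∀ Y Z : 𝔤, A ⁅Y, Z⁆ = ⁅A Y, A Z⁆) → ∀ H : LieSubalgebra ℝ 𝔤,
  (∀ Y ∈ ctr A ∪ ctr A.symm, Y ∈ H) →
  ∀ Z ∈ (LieSubmodule.lieSpan ℝ 𝔤 (ctr A ∪ ctr A.symm) : LieIdeal ℝ 𝔤), Z ∈ H

/-! ### C. Measure preserving actions -/

/-- a continuous measure preserving action of a connected Lie group in exponential coordinates -/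
structure GAct {X : Type} [MeasurableSpace X] {𝔤 : Type} [LieRing 𝔤] [LieAlgebra ℝ 𝔤]
    [FiniteDimensional ℝ 𝔤] [TopologicalSpace 𝔤] [IsTopologicalAddGroup 𝔤] [ContinuousSMul ℝ 𝔤]
    [T2Space 𝔤] (μ : Measure X) (E : 𝔤 → X → X) : Prop where
  mp : ∀ Y, MeasurePreserving (E Y) μ μ
  zero : Same μ (E 0) id
  line : ∀ (Y : 𝔤) (s t : ℝ), Same μ (E ((s + t) • Y)) (E (s • Y) ∘ E (t • Y))
  conj : ∀ Y Z Z' : 𝔤,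
    HasSum (fun l : ℕ => ((l.factorial : ℝ)⁻¹) • ((LieAlgebra.ad ℝ 𝔤 Y) ^ l) Z) Z' →
    Same μ (E Y ∘ E Z) (E Z' ∘ E Y)
  cont : ∀ f : X → ℂ, Bd f → ∀ Y₀,
    Tendsto (fun Y => ∫ p, ‖f (E Y p) - f (E Y₀ p)‖ ∂μ) (𝓝 Y₀) (𝓝 0)
  loc : ∃ (n : ℕ) (e : 𝔤 ≃L[ℝ] (Fin n → ℝ)) (C ρ : ℝ), 0 < ρ ∧
    ∀ Y Z : 𝔤, ‖e Y‖ ≤ ρ → ‖e Z‖ ≤ ρ →
      ∃ V : 𝔤, ‖e (V - Y - Z)‖ ≤ C * ‖e ⁅Y, Z⁆‖ ∧ Same μ (E Y ∘ E Z) (E V)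

def S_TROT : Prop := ∀ (X : Type) [MeasurableSpace X] (𝔤 : Type) [LieRing 𝔤] [LieAlgebra ℝ 𝔤]
  [FiniteDimensional ℝ 𝔤] [TopologicalSpace 𝔤] [IsTopologicalAddGroup 𝔤] [ContinuousSMul ℝ 𝔤]
  [T2Space 𝔤] (μ : Measure X) [IsProbabilityMeasure μ] (E : 𝔤 → X → X), GAct μ E → LieAct μ E

def S_MAUX : Prop := ∀ (X : Type) [MeasurableSpace X] (𝔤 : Type) [LieRing 𝔤] [LieAlgebra ℝ 𝔤]
  [FiniteDimensional ℝ 𝔤] [TopologicalSpace 𝔤] [IsTopologicalAddGroup 𝔤] [ContinuousSMul ℝ 𝔤]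
  [T2Space 𝔤] (μ : Measure X) [IsProbabilityMeasure μ] (E : 𝔤 → X → X), GAct μ E →
  ∀ (K : LieIdeal ℝ 𝔤) (W : 𝔤), (∃ c : ℕ, ∀ Y, ((LieAlgebra.ad ℝ 𝔤 W) ^ c) Y ∈ K) →
  ∀ B : Set X, MeasurableSet[mK μ E (K : Set 𝔤)] B → (∀ u : ℝ, E (u • W) ⁻¹' B =ᵐ[μ] B) →
    MeasurableSet[mK μ E ((K ⊔ LieSubmodule.lieSpan ℝ 𝔤 {W} : LieIdeal ℝ 𝔤) : Set 𝔤)] B

/-- the stabiliser of a set is a subalgebra -/
def S_STA : Prop := ∀ (X : Type) [MeasurableSpace X] (𝔤 : Type) [LieRing 𝔤] [LieAlgebra ℝ 𝔤]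
  [FiniteDimensional ℝ 𝔤] [TopologicalSpace 𝔤] [IsTopologicalAddGroup 𝔤] [ContinuousSMul ℝ 𝔤]
  [T2Space 𝔤] (μ : Measure X) [IsProbabilityMeasure μ] (E : 𝔤 → X → X), LieAct μ E →
  ∀ B : Set X, MeasurableSet B →
    ∃ H : LieSubalgebra ℝ 𝔤, ∀ Y, Y ∈ H ↔ ∀ s : ℝ, E (s • Y) ⁻¹' B =ᵐ[μ] B

/-- conditional expectation of bounded functions -/
def S_CE : Prop := ∀ (X : Type) (m : MeasurableSpace X) [mX : MeasurableSpace X] (μ : Measure X)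
  [IsProbabilityMeasure μ], m ≤ mX → ∀ f : X → ℂ, Bd f →
  ∃ g : X → ℂ, BdOn m g ∧ ∀ B : Set X, MeasurableSet[m] B →
    ∫ p in B, (f p - g p) ∂μ = 0

/-- functions orthogonal to the invariant sets are limits of coboundaries -/
def S_DENS : Prop := ∀ (X : Type) [MeasurableSpace X] (ι : Type) (μ : Measure X)
  [IsProbabilityMeasure μ] (S : ι → X → X), (∀ i, MeasurePreserving (S i) μ μ) →
  ∀ f : X → ℂ, Bd f →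
  (∀ B : Set X, MeasurableSet B → (∀ i, S i ⁻¹' B =ᵐ[μ] B) → ∫ p in B, f p ∂μ = 0) →
  ∀ ε : ℝ, 0 < ε →
  ∃ g ∈ Submodule.span ℂ {g : X → ℂ | ∃ (i : ι) (h : X → ℂ), Bd h ∧ g = fun p => h p - h (S i p)},
    Bd g ∧ ∫ p, ‖f p - g p‖ ∂μ ≤ ε

/-- coboundaries at the index `j` do not correlate with functions which are invariant at later
times -/
def S_COB : Prop := ∀ (X : Type) [MeasurableSpace X] (𝔤 : Type) [LieRing 𝔤] [LieAlgebra ℝ 𝔤]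
  [FiniteDimensional ℝ 𝔤] [TopologicalSpace 𝔤] [IsTopologicalAddGroup 𝔤] [ContinuousSMul ℝ 𝔤]
  [T2Space 𝔤] (μ : Measure X) [IsProbabilityMeasure μ] (E : 𝔤 → X → X), LieAct μ E →
  ∀ (T : X ≃ᵐ X), MeasurePreserving T μ μ → ∀ A : 𝔤 ≃ₗ[ℝ] 𝔤,
  (∀ Y, Same μ (T ∘ E Y) (E (A Y) ∘ T)) →
  ∀ (N : ℕ) (U : Ultrafilter (Fin N → ℤ)), (U : Filter (Fin N → ℤ)) ≤ spread N →
  ∀ (j : Fin N) (f : Fin N → X → ℂ), (∀ i, Bd (f i)) →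
  (∀ i, (∀ᶠ n in (U : Filter (Fin N → ℤ)), n j < n i) →
    ∀ Z ∈ ctr A.symm, (fun p => f i (E Z p)) =ᵐ[μ] f i) →
  ∀ Y ∈ ctr A.symm, ∀ h : X → ℂ, Bd h →
    L μ (pw T) U (Function.update f j fun p => h (E Y p)) = L μ (pw T) U (Function.update f j h)

/-- the functional vanishes on functions with vanishing conditional expectation on the sets
invariant under the expanding directions -/
def S_ONE : Prop := ∀ (X : Type) [MeasurableSpace X] (𝔤 : Type) [LieRing 𝔤] [LieAlgebra ℝ 𝔤]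
  [FiniteDimensional ℝ 𝔤] [TopologicalSpace 𝔤] [IsTopologicalAddGroup 𝔤] [ContinuousSMul ℝ 𝔤]
  [T2Space 𝔤] (μ : Measure X) [IsProbabilityMeasure μ] (E : 𝔤 → X → X), LieAct μ E →
  ∀ (T : X ≃ᵐ X), MeasurePreserving T μ μ → ∀ A : 𝔤 ≃ₗ[ℝ] 𝔤,
  (∀ Y, Same μ (T ∘ E Y) (E (A Y) ∘ T)) →
  ∀ (N : ℕ) (U : Ultrafilter (Fin N → ℤ)), (U : Filter (Fin N → ℤ)) ≤ spread N →
  ∀ (f : Fin N → X → ℂ), (∀ i, Bd (f i)) → ∀ (j : Fin N) (u : X → ℂ), Bd u →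
  (∀ B : Set X, MeasurableSet[mK μ E (ctr A.symm)] B → ∫ p in B, u p ∂μ = 0) →
    L μ (pw T) U (Function.update f j u) = 0

/-- reduction to the sets invariant under expanding and contracting directions -/
def S_HYP : Prop := ∀ (X : Type) [MeasurableSpace X] (𝔤 : Type) [LieRing 𝔤] [LieAlgebra ℝ 𝔤]
  [FiniteDimensional ℝ 𝔤] [TopologicalSpace 𝔤] [IsTopologicalAddGroup 𝔤] [ContinuousSMul ℝ 𝔤]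
  [T2Space 𝔤] (μ : Measure X) [IsProbabilityMeasure μ] (E : 𝔤 → X → X), LieAct μ E →
  ∀ (T : X ≃ᵐ X), MeasurePreserving T μ μ → ∀ A : 𝔤 ≃ₗ[ℝ] 𝔤,
  (∀ Y, Same μ (T ∘ E Y) (E (A Y) ∘ T)) → ∀ k : ℕ,
  MixOn μ T (fun B => MeasurableSet[mK μ E (ctr A ∪ ctr A.symm)] B) k →
  MixOn μ T (fun _ => True) k

/-- the shearing estimate -/
def S_SHEAR : Prop := ∀ (X : Type) [MeasurableSpace X] (𝔤 : Type) [LieRing 𝔤] [LieAlgebra ℝ 𝔤]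
  [FiniteDimensional ℝ 𝔤] [TopologicalSpace 𝔤] [IsTopologicalAddGroup 𝔤] [ContinuousSMul ℝ 𝔤]
  [T2Space 𝔤] (μ : Measure X) [IsProbabilityMeasure μ] (E : 𝔤 → X → X), LieAct μ E →
  ∀ (T : X ≃ᵐ X), MeasurePreserving T μ μ → ∀ A : 𝔤 ≃ₗ[ℝ] 𝔤,
  (∀ Y, Same μ (T ∘ E Y) (E (A Y) ∘ T)) → ∀ K : LieIdeal ℝ 𝔤, (∀ Y, A Y ∈ K ↔ Y ∈ K) →
  ∀ (Y : 𝔤) (d : ℕ), 1 ≤ d → ((nA A) ^ (d + 1)) Y ∈ K →
  ShearsOn (mK μ E (K : Set 𝔤)) μ T.toEquiv (fun ε => E (ε • Y))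
    (fun u => E (u • ((nA A) ^ d) Y)) (rt d)

/-- the induction over the ideals -/
def S_UNI : Prop := ∀ (X : Type) [MeasurableSpace X] (𝔤 : Type) [LieRing 𝔤] [LieAlgebra ℝ 𝔤]
  [FiniteDimensional ℝ 𝔤] [TopologicalSpace 𝔤] [IsTopologicalAddGroup 𝔤] [ContinuousSMul ℝ 𝔤]
  [T2Space 𝔤] (μ : Measure X) [IsProbabilityMeasure μ] (E : 𝔤 → X → X), GAct μ E → LieAct μ E →
  ∀ (T : X ≃ᵐ X), MeasurePreserving T μ μ → ∀ A : 𝔤 ≃ₗ[ℝ] 𝔤,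
  (∀ Y Z : 𝔤, A ⁅Y, Z⁆ = ⁅A Y, A Z⁆) → (∀ Y, Same μ (T ∘ E Y) (E (A Y) ∘ T)) →
  ∀ K : LieIdeal ℝ 𝔤, (∀ Y, A Y ∈ K ↔ Y ∈ K) → ∀ k : ℕ,
  MixOn μ T (fun B => MeasurableSet[mK μ E
    ((K ⊔ LieSubmodule.lieSpan ℝ 𝔤 (uni A) : LieIdeal ℝ 𝔤) : Set 𝔤)] B) k →
  MixOn μ T (fun B => MeasurableSet[mK μ E (K : Set 𝔤)] B) k

/-- powers -/
def S_POW : Prop := ∀ (X : Type) [MeasurableSpace X] (μ : Measure X) [IsProbabilityMeasure μ]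
  (T : X ≃ᵐ X), MeasurePreserving T μ μ → ∀ (q : ℕ), 1 ≤ q → ∀ k : ℕ,
  MixOn μ (T^[q]) (fun _ => True) k → MixOn μ T (fun _ => True) k

end Pool.Agent.W42.RG
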