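import Mathlib
import Pool.Agent.W42.RG.Defs

set_option autoImplicit false
set_option linter.unusedSectionVars false
set_option linter.unusedVariables false

/-!
Definitions and statements for arbitrary automorphisms (rotations of infinite order included).
-/

namespace Pool.Agent.W42.RG

open Finset Filter Topology MeasureTheory Pool.Agent.W42.RN Pool.Agent.W42.RL

/-! ### A. Linear algebra.  A vector `v` of the complexification of `V` is represented by the real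
linear map `φ : ℂ → V`, `φ ζ = Re (ζ v)`. -/

section

variable {V : Type} [AddCommGroup V] [Module ℝ V]

/-- `A - ω` acting on complex vectors -/
noncomputable def nw (A : V ≃ₗ[ℝ] V) (ω : ℂ) (φ : ℂ →ₗ[ℝ] V) : ℂ →ₗ[ℝ] V :=
  (A : V →ₗ[ℝ] V) ∘ₗ φ - φ ∘ₗ (LinearMap.mulLeft ℝ ω)

/-- the powers of `A` are bounded on `V / J` -/
def Ell [TopologicalSpace V] (A : V ≃ₗ[ℝ] V) (J : Submodule ℝ V) : Prop :=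
  (∀ Y ∈ J, A Y ∈ J) ∧ ∀ Y, ∃ C : Set V, IsCompact C ∧ ∀ n : ℤ, ∃ W ∈ J, (A ^ n) Y - W ∈ C

end

def S_ELL1 : Prop := ∀ (V : Type) [AddCommGroup V] [Module ℝ V] [FiniteDimensional ℝ V]
  [TopologicalSpace V] [IsTopologicalAddGroup V] [ContinuousSMul ℝ V] [T2Space V]
  (A : V ≃ₗ[ℝ] V) (J : Submodule ℝ V), Ell A J →
  (∀ Y ∈ ctr A, Y ∈ J) ∧ (∀ Y ∈ ctr A.symm, Y ∈ J) ∧ ∀ q : ℕ, 1 ≤ q → ∀ Y ∈ uni (A ^ q), Y ∈ J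

def S_ELL2 : Prop := ∀ (V : Type) [AddCommGroup V] [Module ℝ V] [FiniteDimensional ℝ V]
  [TopologicalSpace V] [IsTopologicalAddGroup V] [ContinuousSMul ℝ V] [T2Space V]
  (A : V ≃ₗ[ℝ] V) (J : Submodule ℝ V), Ell A J → ∀ ω : ℂ, ‖ω‖ = 1 →
  ∀ (φ : ℂ →ₗ[ℝ] V) (d : ℕ), 1 ≤ d → (∀ ζ, (nw A ω)^[d + 1] φ ζ ∈ J) →
  ∀ ζ, (nw A ω)^[d] φ ζ ∈ J

def S_EXI : Prop := ∀ (V : Type) [AddCommGroup V] [Module ℝ V] [FiniteDimensional ℝ V]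
  [TopologicalSpace V] [IsTopologicalAddGroup V] [ContinuousSMul ℝ V] [T2Space V]
  (A : V ≃ₗ[ℝ] V), ∃ q : ℕ, 1 ≤ q ∧ ∀ K : Submodule ℝ V, (∀ Y, A Y ∈ K ↔ Y ∈ K) →
  (∀ Y ∈ ctr A, Y ∈ K) → (∀ Y ∈ ctr A.symm, Y ∈ K) → (∀ Y ∈ uni (A ^ q), Y ∈ K) →
  ¬ Ell A K →
  ∃ ω : ℂ, ‖ω‖ = 1 ∧ (∀ n : ℕ, 1 ≤ n → ω ^ n ≠ 1) ∧ ∃ (φ : ℂ →ₗ[ℝ] V) (d : ℕ), 1 ≤ d ∧
    (∀ ζ, (nw A ω)^[d + 1] φ ζ ∈ K) ∧ ∃ ζ, (nw A ω)^[d] φ ζ ∉ K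

def S_RPOLY : Prop := ∀ (V : Type) [AddCommGroup V] [Module ℝ V] (A : V ≃ₗ[ℝ] V)
  (K : Submodule ℝ V), (∀ Y, A Y ∈ K ↔ Y ∈ K) → ∀ (ω : ℂ), ω ≠ 0 →
  ∀ (φ : ℂ →ₗ[ℝ] V) (d : ℕ), 1 ≤ d → (∀ ζ, (nw A ω)^[d + 1] φ ζ ∈ K) →
  ∃ (q : ℕ → ℤ → ℝ) (C : ℝ), (∀ l < d, ∀ n : ℤ, |q l n| ≤ C * (1 + |(n : ℝ)|) ^ (d - 1)) ∧
    (∀ n : ℤ, |q d n - (n : ℝ) ^ d / d.factorial| ≤ C * (1 + |(n : ℝ)|) ^ (d - 1)) ∧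
    ∀ (n : ℤ) (ζ : ℂ),
      (A ^ n) (φ ζ) - ∑ l ∈ range (d + 1), q l n • ((nw A ω)^[l] φ (ω ^ (n - l) * ζ)) ∈ K

/-- limits of conjugates of small elements are nilpotent -/
def S_NILL : Prop := ∀ (𝔤 : Type) [LieRing 𝔤] [LieAlgebra ℝ 𝔤] [FiniteDimensional ℝ 𝔤]
  [TopologicalSpace 𝔤] [IsTopologicalAddGroup 𝔤] [ContinuousSMul ℝ 𝔤] [T2Space 𝔤]
  (A : 𝔤 ≃ₗ[ℝ] 𝔤), (∀ Y Z : 𝔤, A ⁅Y, Z⁆ = ⁅A Y, A Z⁆) → ∀ K : LieIdeal ℝ 𝔤,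
  (∀ Y, A Y ∈ K ↔ Y ∈ K) → ∀ ω : ℂ, ‖ω‖ = 1 → ∀ (φ : ℂ →ₗ[ℝ] 𝔤) (d : ℕ), 1 ≤ d →
  (∀ ζ, (nw A ω)^[d + 1] φ ζ ∈ K) → ∀ ζ,
  ∃ c : ℕ, ∀ Y, ((LieAlgebra.ad ℝ 𝔤 ((nw A ω)^[d] φ ζ)) ^ c) Y ∈ K

/-- sums of spread out powers of `ω` do not vanish -/
def S_ARI : Prop := ∀ ω : ℂ, ‖ω‖ = 1 → (∀ n : ℕ, 1 ≤ n → ω ^ n ≠ 1) →
  ∀ (N : ℕ) (c : Fin N → ℂ), (∃ i, c i ≠ 0) →
  ∃ M : ℕ, ∀ n : Fin N → ℤ, (∀ i j, i ≠ j → (M : ℤ) ≤ |n i - n j|) → ∑ i, c i * ω ^ (n i) ≠ 0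

/-- continuous characters of the plane -/
def S_CHAR : Prop := ∀ χ : ℂ → ℂ, (∀ ζ, ‖χ ζ‖ = 1) → (∀ ζ ζ', χ (ζ + ζ') = χ ζ * χ ζ') →
  Continuous χ → ∃ a : ℂ, ∀ ζ, χ ζ = Complex.exp (Complex.I * (((a * ζ).re : ℝ) : ℂ))

/-! ### B. Hilbert space -/

/-- the Mautner phenomenon for eigenvectors -/
def S_LIN : Prop := ∀ (V H : Type) [NormedAddCommGroup V] [NormedSpace ℝ V]
  [FiniteDimensional ℝ V] [NormedAddCommGroup H] [InnerProductSpace ℂ H] [CompleteSpace H]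
  (br : V →L[ℝ] V →L[ℝ] V) (Φ : V → H →ₗᵢ[ℂ] H), Iso br (fun Y f => Φ Y f) →
  ∀ (f : H) (K : Submodule ℝ V), (∀ Y : V, ∀ Z ∈ K, br Y Z ∈ K) → (∀ Z ∈ K, Φ Z f = f) →
  ∀ W : V, (∀ t : ℝ, ∃ c : ℂ, ‖c‖ = 1 ∧ Φ (t • W) f = c • f) →
  (∃ c : ℕ, ∀ Y : V, ((br W) ^ c) Y ∈ K) →
  ∃ S : Submodule ℝ V, (∀ Y : V, ∀ Z ∈ S, br Y Z ∈ S) ∧ W ∈ S ∧ K ≤ S ∧
    ∀ Y : V, ∀ Z ∈ S, ∀ t : ℝ, Φ (t • br Y Z) f = f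

/-- joint eigenvectors of commuting unitary operators -/
def S_JOINT : Prop := ∀ (H : Type) [NormedAddCommGroup H] [InnerProductSpace ℂ H]
  [CompleteSpace H] (ι κ : Type) (U : ι → H ≃ₗᵢ[ℂ] H) (V : κ → H ≃ₗᵢ[ℂ] H),
  (∀ i k w, U i (V k w) = V k (U i w)) → ∀ G : H,
  G ∈ (Submodule.span ℂ {w : H | ∀ i, ∃ c : ℂ, ‖c‖ = 1 ∧ U i w = c • w}).topologicalClosure →
  G ∈ (Submodule.span ℂ {w : H | ∀ k, ∃ c : ℂ, ‖c‖ = 1 ∧ V k w = c • w}).topologicalClosure →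
  G ∈ (Submodule.span ℂ {w : H | (∀ i, ∃ c : ℂ, ‖c‖ = 1 ∧ U i w = c • w) ∧
    ∀ k, ∃ c : ℂ, ‖c‖ = 1 ∧ V k w = c • w}).topologicalClosure

/-! ### C. Abstract rotating flows -/

section

variable {X : Type} [MeasurableSpace X]

/-- maps `Z ζ`, additive on real lines, with `T Z ζ = Z (ω ζ) T` -/
structure RF (μ : Measure X) (T : X ≃ᵐ X) (Z : ℂ → X → X) (ω : ℂ) : Prop where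
  mp : ∀ ζ, MeasurePreserving (Z ζ) μ μ
  zero : Same μ (Z 0) id
  line : ∀ (ζ : ℂ) (s t : ℝ), Same μ (Z ((s + t) • ζ)) (Z (s • ζ) ∘ Z (t • ζ))
  cont : ∀ f : X → ℂ, Bd f → ∀ ζ₀,
    Tendsto (fun ζ => ∫ p, ‖f (Z ζ p) - f (Z ζ₀ p)‖ ∂μ) (𝓝 ζ₀) (𝓝 0)
  eqv : ∀ ζ, Same μ (T ∘ Z ζ) (Z (ω * ζ) ∘ T)

/-- shearing along a rotating flow -/
def RShears (μ : Measure X) (T : X ≃ᵐ X) (x : ℝ → ℂ → X → X) (Z : ℂ → X → X) (ω : ℂ)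
    (r : ℤ → ℝ) : Prop :=
  ∀ f : X → ℂ, Bd f → ∀ (ζ : ℂ) (U δ : ℝ), 0 < U → 0 < δ → ∃ ε₀ > 0, ∀ ε : ℝ, 0 < ε → ε < ε₀ →
    ∀ n : ℤ, ε * |r n| ≤ U →
      ∫ p, ‖f (pw T n (x ε ζ p)) - f (Z (((ε * r n : ℝ) : ℂ) * ω ^ n * ζ) (pw T n p))‖ ∂μ ≤ δ

end

section

variable {X : Type}

/-- the same relative to a `σ`-algebra `m` -/
structure RFOn (m : MeasurableSpace X) [mX : MeasurableSpace X] (μ : Measure X) (T : X ≃ᵐ X)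
    (Z : ℂ → X → X) (ω : ℂ) : Prop where
  mp : ∀ ζ, MeasurePreserving (Z ζ) μ μ
  meas : ∀ ζ, Measurable[m, m] (Z ζ)
  zero : SameOn m μ (Z 0) id
  line : ∀ (ζ : ℂ) (s t : ℝ), SameOn m μ (Z ((s + t) • ζ)) (Z (s • ζ) ∘ Z (t • ζ))
  cont : ∀ f : X → ℂ, BdOn m f → ∀ ζ₀,
    Tendsto (fun ζ => ∫ p, ‖f (Z ζ p) - f (Z ζ₀ p)‖ ∂μ) (𝓝 ζ₀) (𝓝 0)
  eqv : ∀ ζ, SameOn m μ (T ∘ Z ζ) (Z (ω * ζ) ∘ T)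

def RShearsOn (m : MeasurableSpace X) [mX : MeasurableSpace X] (μ : Measure X) (T : X ≃ᵐ X)
    (x : ℝ → ℂ → X → X) (Z : ℂ → X → X) (ω : ℂ) (r : ℤ → ℝ) : Prop :=
  ∀ f : X → ℂ, BdOn m f → ∀ (ζ : ℂ) (U δ : ℝ), 0 < U → 0 < δ → ∃ ε₀ > 0, ∀ ε : ℝ, 0 < ε →
    ε < ε₀ → ∀ n : ℤ, ε * |r n| ≤ U →
      ∫ p, ‖f (pw T n (x ε ζ p)) - f (Z (((ε * r n : ℝ) : ℂ) * ω ^ n * ζ) (pw T n p))‖ ∂μ ≤ δ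

end

/-- the shearing identity for the limit functional -/
def S_RLSH : Prop := ∀ (X : Type) [MeasurableSpace X] (μ : Measure X) [IsProbabilityMeasure μ]
  (T : X ≃ᵐ X), MeasurePreserving T μ μ → ∀ (Z : ℂ → X → X) (ω : ℂ), ‖ω‖ = 1 → RF μ T Z ω →
  ∀ (x : ℝ → ℂ → X → X), (∀ ε ζ, MeasurePreserving (x ε ζ) μ μ) → ∀ r : ℤ → ℝ, Rate r →
  RShears μ T x Z ω r → ∀ (N : ℕ) (U : Ultrafilter (Fin N → ℤ)),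
  (U : Filter (Fin N → ℤ)) ≤ spread N → ∀ j : Fin N, (∃ i : Fin N, i ≠ j) →
  ∃ c, c ≠ j ∧ ∃ (ρ : Fin N → ℝ) (σ : Fin N → ℂ), (∀ i, ‖σ i‖ = 1) ∧ ρ c = 0 ∧
    (ρ j = 1 ∨ ρ j = -1) ∧ ∀ (ζ : ℂ) (f : Fin N → X → ℂ), (∀ i, Bd (f i)) →
      L μ (pw T) U (fun i p => f i (Z ((ρ i : ℂ) * σ i * ζ) p)) = L μ (pw T) U f

/-- the step for a function of small correlations along one direction -/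
def S_RW : Prop := ∀ (X : Type) [MeasurableSpace X] (μ : Measure X) [IsProbabilityMeasure μ]
  (T : X ≃ᵐ X), MeasurePreserving T μ μ → ∀ (Z : ℂ → X → X) (ω : ℂ), ‖ω‖ = 1 → RF μ T Z ω →
  ∀ (x : ℝ → ℂ → X → X), (∀ ε ζ, MeasurePreserving (x ε ζ) μ μ) → ∀ r : ℤ → ℝ, Rate r →
  RShears μ T x Z ω r → ∀ N : ℕ, 1 ≤ N → MixAll μ (pw T) N →
  ∀ U : Ultrafilter (Fin (N + 1) → ℤ), (U : Filter (Fin (N + 1) → ℤ)) ≤ spread (N + 1) →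
  ∀ (j : Fin (N + 1)) (f : Fin (N + 1) → X → ℂ), (∀ i, Bd (f i)) →
  ∀ K : ℝ, 1 ≤ K → (∀ i p, ‖f i p‖ ≤ K) → ∀ h : X → ℂ, Bd h → ∀ M : ℕ, 0 < M →
  ∀ (η : ℂ) (δ : ℝ), ∑ a ∈ range M, ∑ b ∈ range M,
    ‖∫ p, h (Z ((a : ℝ) • η) p) * (starRingEnd ℂ) (h (Z ((b : ℝ) • η) p)) ∂μ‖ ≤ δ * (M : ℝ) ^ 2 →
    ‖L μ (pw T) U (Function.update f j h)‖ ^ 2 ≤ δ * (K ^ (N + 2)) ^ 2

/-- the functional is carried by the eigenfunctions of every direction -/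
def S_RL : Prop := ∀ (X : Type) [MeasurableSpace X] (μ : Measure X) [IsProbabilityMeasure μ]
  (T : X ≃ᵐ X), MeasurePreserving T μ μ → ∀ (Z : ℂ → X → X) (ω : ℂ), ‖ω‖ = 1 → RF μ T Z ω →
  ∀ (x : ℝ → ℂ → X → X), (∀ ε ζ, MeasurePreserving (x ε ζ) μ μ) → ∀ r : ℤ → ℝ, Rate r →
  RShears μ T x Z ω r → ∀ N : ℕ, 1 ≤ N → MixAll μ (pw T) N →
  ∀ U : Ultrafilter (Fin (N + 1) → ℤ), (U : Filter (Fin (N + 1) → ℤ)) ≤ spread (N + 1) →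
  ∀ (j : Fin (N + 1)) (f : Fin (N + 1) → X → ℂ), (∀ i, Bd (f i)) →
  ∃ G : Lp ℂ 2 μ, (∀ (h : X → ℂ) (hh : Bd h),
      L μ (pw T) U (Function.update f j h) = inner ℂ G (toL hh)) ∧
    (∀ K : ℝ, 1 ≤ K → (∀ i p, ‖f i p‖ ≤ K) → ‖G‖ ≤ K ^ (N + 1)) ∧
    ∀ η : ℂ, G ∈ (Submodule.span ℂ {w : Lp ℂ 2 μ |
      ∃ (g : X → ℂ) (hg : g ∈ EigF μ (fun u : ℝ => Z (u • η))), w = toL hg.1}).topologicalClosure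

/-- reduction to the functions invariant under families of maps which fix the eigenfunctions of the
directions `1` and `i` -/
def S_RA : Prop := ∀ (X : Type) [MeasurableSpace X] (μ : Measure X) [IsProbabilityMeasure μ]
  (T : X ≃ᵐ X), MeasurePreserving T μ μ → ∀ (Z : ℂ → X → X) (ω : ℂ), ‖ω‖ = 1 → RF μ T Z ω →
  ∀ (x : ℝ → ℂ → X → X), (∀ ε ζ, MeasurePreserving (x ε ζ) μ μ) → ∀ r : ℤ → ℝ, Rate r →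
  RShears μ T x Z ω r → ∀ (ι₁ ι₂ : Type) (S₁ : ι₁ → X → X) (S₂ : ι₂ → X → X),
  (∀ a, MeasurePreserving (S₁ a) μ μ) → (∀ a, MeasurePreserving (S₂ a) μ μ) →
  (∀ f ∈ EigF μ (fun u : ℝ => Z (u • (1 : ℂ))), ∀ a, (fun p => f (S₁ a p)) =ᵐ[μ] f) →
  (∀ f ∈ EigF μ (fun u : ℝ => Z (u • Complex.I)), ∀ a, (fun p => f (S₂ a p)) =ᵐ[μ] f) →
  ∀ k : ℕ, MixOn μ T (fun B => (∀ a, S₁ a ⁻¹' B =ᵐ[μ] B) ∧ ∀ a, S₂ a ⁻¹' B =ᵐ[μ] B) k →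
    MixOn μ T (fun _ => True) k

/-- the central step -/
def S_RB : Prop := ∀ (X : Type) [MeasurableSpace X] (μ : Measure X) [IsProbabilityMeasure μ]
  (T : X ≃ᵐ X), MeasurePreserving T μ μ → ∀ (Z : ℂ → X → X) (ω : ℂ), ‖ω‖ = 1 →
  (∀ n : ℕ, 1 ≤ n → ω ^ n ≠ 1) → RF μ T Z ω →
  (∀ ζ ζ', Same μ (Z (ζ + ζ')) (Z ζ ∘ Z ζ')) →
  ∀ (x : ℝ → ℂ → X → X), (∀ ε ζ, MeasurePreserving (x ε ζ) μ μ) → ∀ r : ℤ → ℝ, Rate r →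
  RShears μ T x Z ω r → ∀ k : ℕ, MixOn μ T (fun B => ∀ ζ, Z ζ ⁻¹' B =ᵐ[μ] B) k →
    MixOn μ T (fun _ => True) k

/-- `S_RA` relative to a `σ`-algebra -/
def S_RAon : Prop := ∀ (X : Type) (m : MeasurableSpace X) [mX : MeasurableSpace X]
  (μ : Measure X) [IsProbabilityMeasure μ] (T : X ≃ᵐ X), MeasurePreserving T μ μ → m ≤ mX →
  Measurable[m, m] T → Measurable[m, m] T.symm → ∀ (Z : ℂ → X → X) (ω : ℂ), ‖ω‖ = 1 →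
  RFOn m μ T Z ω → ∀ (x : ℝ → ℂ → X → X), (∀ ε ζ, MeasurePreserving (x ε ζ) μ μ) →
  (∀ ε ζ, Measurable[m, m] (x ε ζ)) → ∀ r : ℤ → ℝ, Rate r → RShearsOn m μ T x Z ω r →
  ∀ (ι₁ ι₂ : Type) (S₁ : ι₁ → X → X) (S₂ : ι₂ → X → X),
  (∀ a, MeasurePreserving (S₁ a) μ μ) → (∀ a, MeasurePreserving (S₂ a) μ μ) →
  (∀ a, Measurable[m, m] (S₁ a)) → (∀ a, Measurable[m, m] (S₂ a)) →
  (∀ f, BdOn m f → (∃ χ : ℝ → ℂ, (∀ u, ‖χ u‖ = 1) ∧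
    ∀ u : ℝ, (fun p => f (Z (u • (1 : ℂ)) p)) =ᵐ[μ] fun p => χ u * f p) →
    ∀ a, (fun p => f (S₁ a p)) =ᵐ[μ] f) →
  (∀ f, BdOn m f → (∃ χ : ℝ → ℂ, (∀ u, ‖χ u‖ = 1) ∧
    ∀ u : ℝ, (fun p => f (Z (u • Complex.I) p)) =ᵐ[μ] fun p => χ u * f p) →
    ∀ a, (fun p => f (S₂ a p)) =ᵐ[μ] f) →
  ∀ k : ℕ, MixOn μ T (fun B => MeasurableSet[m] B ∧ (∀ a, S₁ a ⁻¹' B =ᵐ[μ] B) ∧
    ∀ a, S₂ a ⁻¹' B =ᵐ[μ] B) k → MixOn μ T (fun B => MeasurableSet[m] B) k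

/-- `S_RB` relative to a `σ`-algebra -/
def S_RBon : Prop := ∀ (X : Type) (m : MeasurableSpace X) [mX : MeasurableSpace X]
  (μ : Measure X) [IsProbabilityMeasure μ] (T : X ≃ᵐ X), MeasurePreserving T μ μ → m ≤ mX →
  Measurable[m, m] T → Measurable[m, m] T.symm → ∀ (Z : ℂ → X → X) (ω : ℂ), ‖ω‖ = 1 →
  (∀ n : ℕ, 1 ≤ n → ω ^ n ≠ 1) → RFOn m μ T Z ω →
  (∀ ζ ζ', SameOn m μ (Z (ζ + ζ')) (Z ζ ∘ Z ζ')) →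
  ∀ (x : ℝ → ℂ → X → X), (∀ ε ζ, MeasurePreserving (x ε ζ) μ μ) →
  (∀ ε ζ, Measurable[m, m] (x ε ζ)) → ∀ r : ℤ → ℝ, Rate r → RShearsOn m μ T x Z ω r →
  ∀ k : ℕ, MixOn μ T (fun B => MeasurableSet[m] B ∧ ∀ ζ, Z ζ ⁻¹' B =ᵐ[μ] B) k →
    MixOn μ T (fun B => MeasurableSet[m] B) k

/-! ### D. Lie group actions -/

/-- eigenfunctions are invariant under the brackets -/
def S_MAUE : Prop := ∀ (X : Type) [MeasurableSpace X] (𝔤 : Type) [LieRing 𝔤] [LieAlgebra ℝ 𝔤]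
  [FiniteDimensional ℝ 𝔤] [TopologicalSpace 𝔤] [IsTopologicalAddGroup 𝔤] [ContinuousSMul ℝ 𝔤]
  [T2Space 𝔤] (μ : Measure X) [IsProbabilityMeasure μ] (E : 𝔤 → X → X), GAct μ E →
  ∀ (K : LieIdeal ℝ 𝔤) (W : 𝔤), (∃ c : ℕ, ∀ Y, ((LieAlgebra.ad ℝ 𝔤 W) ^ c) Y ∈ K) →
  ∀ f : X → ℂ, BdOn (mK μ E (K : Set 𝔤)) f →
  (∀ u : ℝ, ∃ c : ℂ, ‖c‖ = 1 ∧ (fun p => f (E (u • W) p)) =ᵐ[μ] fun p => c * f p) →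
  ∀ Z ∈ (⁅(⊤ : LieIdeal ℝ 𝔤), K ⊔ LieSubmodule.lieSpan ℝ 𝔤 {W}⁆ : LieIdeal ℝ 𝔤),
    (fun p => f (E Z p)) =ᵐ[μ] f

/-- the rotating flow of a generalised eigenvector -/
def S_RFL : Prop := ∀ (X : Type) [MeasurableSpace X] (𝔤 : Type) [LieRing 𝔤] [LieAlgebra ℝ 𝔤]
  [FiniteDimensional ℝ 𝔤] [TopologicalSpace 𝔤] [IsTopologicalAddGroup 𝔤] [ContinuousSMul ℝ 𝔤]
  [T2Space 𝔤] (μ : Measure X) [IsProbabilityMeasure μ] (E : 𝔤 → X → X), LieAct μ E →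
  ∀ (T : X ≃ᵐ X), MeasurePreserving T μ μ → ∀ A : 𝔤 ≃ₗ[ℝ] 𝔤,
  (∀ Y, Same μ (T ∘ E Y) (E (A Y) ∘ T)) → ∀ K : LieIdeal ℝ 𝔤, (∀ Y, A Y ∈ K ↔ Y ∈ K) →
  ∀ (ω : ℂ) (ψ : ℂ →ₗ[ℝ] 𝔤), (∀ ζ, nw A ω ψ ζ ∈ K) →
    RFOn (mK μ E (K : Set 𝔤)) μ T (fun ζ => E (ψ ζ)) ω ∧
    Measurable[mK μ E (K : Set 𝔤), mK μ E (K : Set 𝔤)] T ∧
    Measurable[mK μ E (K : Set 𝔤), mK μ E (K : Set 𝔤)] T.symm ∧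
    ((∀ (Y : 𝔤) (ζ : ℂ), ⁅Y, ψ ζ⁆ ∈ K) → ∀ ζ ζ',
      SameOn (mK μ E (K : Set 𝔤)) μ (E (ψ (ζ + ζ'))) (E (ψ ζ) ∘ E (ψ ζ')))

/-- the rotating shear -/
def S_RSHR : Prop := ∀ (X : Type) [MeasurableSpace X] (𝔤 : Type) [LieRing 𝔤] [LieAlgebra ℝ 𝔤]
  [FiniteDimensional ℝ 𝔤] [TopologicalSpace 𝔤] [IsTopologicalAddGroup 𝔤] [ContinuousSMul ℝ 𝔤]
  [T2Space 𝔤] (μ : Measure X) [IsProbabilityMeasure μ] (E : 𝔤 → X → X), LieAct μ E →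
  ∀ (T : X ≃ᵐ X), MeasurePreserving T μ μ → ∀ A : 𝔤 ≃ₗ[ℝ] 𝔤,
  (∀ Y, Same μ (T ∘ E Y) (E (A Y) ∘ T)) → ∀ K : LieIdeal ℝ 𝔤, (∀ Y, A Y ∈ K ↔ Y ∈ K) →
  ∀ ω : ℂ, ‖ω‖ = 1 → ∀ (φ : ℂ →ₗ[ℝ] 𝔤) (d : ℕ), 1 ≤ d → (∀ ζ, (nw A ω)^[d + 1] φ ζ ∈ K) →
  RShearsOn (mK μ E (K : Set 𝔤)) μ T (fun ε ζ => E (ε • φ (ω ^ d * ζ)))
    (fun ζ => E ((nw A ω)^[d] φ ζ)) ω (rt d)

/-- the step from `K ⊔ [𝔤, ψ]` to `K` -/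
def S_IRA : Prop := ∀ (X : Type) [MeasurableSpace X] (𝔤 : Type) [LieRing 𝔤] [LieAlgebra ℝ 𝔤]
  [FiniteDimensional ℝ 𝔤] [TopologicalSpace 𝔤] [IsTopologicalAddGroup 𝔤] [ContinuousSMul ℝ 𝔤]
  [T2Space 𝔤] (μ : Measure X) [IsProbabilityMeasure μ] (E : 𝔤 → X → X), GAct μ E → LieAct μ E →
  ∀ (T : X ≃ᵐ X), MeasurePreserving T μ μ → ∀ A : 𝔤 ≃ₗ[ℝ] 𝔤,
  (∀ Y Z : 𝔤, A ⁅Y, Z⁆ = ⁅A Y, A Z⁆) → (∀ Y, Same μ (T ∘ E Y) (E (A Y) ∘ T)) →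
  ∀ K : LieIdeal ℝ 𝔤, (∀ Y, A Y ∈ K ↔ Y ∈ K) → ∀ ω : ℂ, ‖ω‖ = 1 →
  ∀ (φ : ℂ →ₗ[ℝ] 𝔤) (d : ℕ), 1 ≤ d → (∀ ζ, (nw A ω)^[d + 1] φ ζ ∈ K) → ∀ k : ℕ,
  MixOn μ T (fun B => MeasurableSet[mK μ E ((K ⊔ ⁅(⊤ : LieIdeal ℝ 𝔤),
    K ⊔ LieSubmodule.lieSpan ℝ 𝔤 (Set.range ((nw A ω)^[d] φ))⁆ : LieIdeal ℝ 𝔤) : Set 𝔤)] B) k →
  MixOn μ T (fun B => MeasurableSet[mK μ E (K : Set 𝔤)] B) k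

/-- the step from `K ⊔ ψ` to `K`, if `ψ` is central modulo `K` -/
def S_IRB : Prop := ∀ (X : Type) [MeasurableSpace X] (𝔤 : Type) [LieRing 𝔤] [LieAlgebra ℝ 𝔤]
  [FiniteDimensional ℝ 𝔤] [TopologicalSpace 𝔤] [IsTopologicalAddGroup 𝔤] [ContinuousSMul ℝ 𝔤]
  [T2Space 𝔤] (μ : Measure X) [IsProbabilityMeasure μ] (E : 𝔤 → X → X), LieAct μ E →
  ∀ (T : X ≃ᵐ X), MeasurePreserving T μ μ → ∀ A : 𝔤 ≃ₗ[ℝ] 𝔤,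
  (∀ Y, Same μ (T ∘ E Y) (E (A Y) ∘ T)) → ∀ K : LieIdeal ℝ 𝔤, (∀ Y, A Y ∈ K ↔ Y ∈ K) →
  ∀ ω : ℂ, ‖ω‖ = 1 → (∀ n : ℕ, 1 ≤ n → ω ^ n ≠ 1) →
  ∀ (φ : ℂ →ₗ[ℝ] 𝔤) (d : ℕ), 1 ≤ d → (∀ ζ, (nw A ω)^[d + 1] φ ζ ∈ K) →
  (∀ (Y : 𝔤) (ζ : ℂ), ⁅Y, (nw A ω)^[d] φ ζ⁆ ∈ K) → ∀ k : ℕ,
  MixOn μ T (fun B => MeasurableSet[mK μ E ((K ⊔
    LieSubmodule.lieSpan ℝ 𝔤 (Set.range ((nw A ω)^[d] φ)) : LieIdeal ℝ 𝔤) : Set 𝔤)] B) k →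
  MixOn μ T (fun B => MeasurableSet[mK μ E (K : Set 𝔤)] B) k

end Pool.Agent.W42.RG
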