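import Mathlib
import Pool.Agent.W42.RG.Defs

set_option autoImplicit false
set_option linter.unusedSectionVars false
set_option linter.unusedVariables false

/-!
Assembly of the general theorem.
-/

namespace Pool.Agent.W42.RG

open Finset Filter Topology MeasureTheory Pool.Agent.W42.RN Pool.Agent.W42.RL

section algebra

variable {𝔤 : Type} [LieRing 𝔤] [LieAlgebra ℝ 𝔤] [FiniteDimensional ℝ 𝔤] [TopologicalSpace 𝔤]
  [IsTopologicalAddGroup 𝔤] [ContinuousSMul ℝ 𝔤] [T2Space 𝔤]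

/-- preimage of an ideal under an automorphism -/
def preI (A : 𝔤 ≃ₗ[ℝ] 𝔤) (hA : ∀ Y Z : 𝔤, A ⁅Y, Z⁆ = ⁅A Y, A Z⁆) (K : LieIdeal ℝ 𝔤) : LieIdeal ℝ 𝔤 :=
  { carrier := {Y | A Y ∈ K}
    zero_mem' := by
      show A 0 ∈ K
      rw [map_zero]; exact K.toSubmodule.zero_mem
    add_mem' := by
      intro a b ha hb
      show A (a + b) ∈ K
      rw [map_add]; exact K.toSubmodule.add_mem ha hb
    smul_mem' := by
      intro t a ha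
      show A (t • a) ∈ K
      rw [map_smul]; exact K.toSubmodule.smul_mem t ha
    lie_mem := by
      intro Z V hV
      show A ⁅Z, V⁆ ∈ K
      rw [hA]; exact K.lie_mem hV }

theorem mem_preI (A : 𝔤 ≃ₗ[ℝ] 𝔤) (hA : ∀ Y Z : 𝔤, A ⁅Y, Z⁆ = ⁅A Y, A Z⁆) (K : LieIdeal ℝ 𝔤) (Y : 𝔤) :
    Y ∈ preI A hA K ↔ A Y ∈ K := Iff.rfl

theorem symm_br {A : 𝔤 ≃ₗ[ℝ] 𝔤} (hA : ∀ Y Z : 𝔤, A ⁅Y, Z⁆ = ⁅A Y, A Z⁆) (Y Z : 𝔤) :
    A.symm ⁅Y, Z⁆ = ⁅A.symm Y, A.symm Z⁆ := by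
  apply A.injective
  rw [hA, A.apply_symm_apply, A.apply_symm_apply, A.apply_symm_apply]

theorem pow_br {A : 𝔤 ≃ₗ[ℝ] 𝔤} (hA : ∀ Y Z : 𝔤, A ⁅Y, Z⁆ = ⁅A Y, A Z⁆) (q : ℕ) (Y Z : 𝔤) :
    (A ^ q) ⁅Y, Z⁆ = ⁅(A ^ q) Y, (A ^ q) Z⁆ := by
  induction q with
  | zero => rfl
  | succ q ih =>
    rw [pow_succ']
    show A ((A ^ q) ⁅Y, Z⁆) = ⁅A ((A ^ q) Y), A ((A ^ q) Z)⁆
    rw [ih, hA]

/-- `ctr` is stable under a commuting linear map -/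
theorem ctr_map {f g : 𝔤 → 𝔤} (hg : ∀ Y, g (f Y) = f (g Y)) (hgl : IsLinearMap ℝ g) {Y : 𝔤}
    (hY : Y ∈ ctr f) : g Y ∈ ctr f := by
  obtain ⟨r, hr, h⟩ := hY
  refine ⟨r, hr, ?_⟩
  have hc : Continuous g := (hgl.mk' g).continuous_of_finiteDimensional
  have h0 : g 0 = 0 := hgl.map_zero
  have h1 := (hc.tendsto 0).comp h
  rw [h0] at h1
  refine h1.congr fun n => ?_
  have h2 : ∀ n : ℕ, g (f^[n] Y) = f^[n] (g Y) := by
    intro n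
    induction n with
    | zero => rfl
    | succ n ih => rw [Function.iterate_succ_apply', Function.iterate_succ_apply', hg, ih]
  rw [Function.comp_apply, hgl.map_smul, h2]

theorem ctr_iter {f : 𝔤 → 𝔤} {q : ℕ} (hq : 1 ≤ q) {Y : 𝔤} (hY : Y ∈ ctr f) : Y ∈ ctr (f^[q]) := by
  obtain ⟨r, hr, h⟩ := hY
  refine ⟨r ^ q, one_lt_pow₀ hr (by omega), ?_⟩
  have h1 : Tendsto (fun n : ℕ => q * n) atTop atTop := by
    apply tendsto_atTop_mono (f := fun n : ℕ => n) _ tendsto_id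
    intro n
    show n ≤ q * n
    nlinarith
  refine (h.comp h1).congr fun n => ?_
  rw [Function.comp_apply, Function.iterate_mul, pow_mul]

theorem smul_ctr {f : 𝔤 → 𝔤} (hf : IsLinearMap ℝ f) (s : ℝ) {Y : 𝔤} (hY : Y ∈ ctr f) : s • Y ∈ ctr f := by
  have hl : IsLinearMap ℝ (fun Y : 𝔤 => s • Y) := ⟨fun a b => smul_add s a b, fun c a => smul_comm s c a⟩
  exact ctr_map (g := fun Y => s • Y) (fun Y => (hf.map_smul s Y).symm) hl hY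

end algebra

variable {X : Type} [MeasurableSpace X]
variable {𝔤 : Type} [LieRing 𝔤] [LieAlgebra ℝ 𝔤] [FiniteDimensional ℝ 𝔤] [TopologicalSpace 𝔤]
  [IsTopologicalAddGroup 𝔤] [ContinuousSMul ℝ 𝔤] [T2Space 𝔤]
variable {μ : Measure X} [IsProbabilityMeasure μ] {E : 𝔤 → X → X}

theorem main1 (h1 : S_UNI) (h2 : S_IDE) (h3 : S_STA) (h4 : S_HYP) (hE : GAct μ E) (hE' : LieAct μ E)
    {T : X ≃ᵐ X} (hT : MeasurePreserving T μ μ) (A : 𝔤 ≃ₗ[ℝ] 𝔤)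
    (hA : ∀ Y Z : 𝔤, A ⁅Y, Z⁆ = ⁅A Y, A Z⁆) (hTE : ∀ Y, Same μ (T ∘ E Y) (E (A Y) ∘ T)) (k : ℕ)
    (h : MixOn μ T (fun B => MeasurableSet[mK μ E ((LieSubmodule.lieSpan ℝ 𝔤 (ctr A ∪ ctr A.symm) ⊔
      LieSubmodule.lieSpan ℝ 𝔤 (uni A) : LieIdeal ℝ 𝔤) : Set 𝔤)] B) k) :
    MixOn μ T (fun _ => True) k := by
  set K : LieIdeal ℝ 𝔤 := LieSubmodule.lieSpan ℝ 𝔤 (ctr A ∪ ctr A.symm) with hK
  have hAl : IsLinearMap ℝ (A : 𝔤 → 𝔤) := ⟨A.map_add, A.map_smul⟩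
  have hAsl : IsLinearMap ℝ (A.symm : 𝔤 → 𝔤) := ⟨A.symm.map_add, A.symm.map_smul⟩
  have k1 : K ≤ preI A hA K := by
    refine LieSubmodule.lieSpan_le.2 fun Y hY => ?_
    show A Y ∈ K
    apply LieSubmodule.subset_lieSpan
    rcases hY with hY | hY
    · exact Or.inl (ctr_map (fun _ => rfl) hAl hY)
    · exact Or.inr (ctr_map (fun Y => by simp) hAl hY)
  have k2 : K ≤ preI A.symm (symm_br hA) K := by
    refine LieSubmodule.lieSpan_le.2 fun Y hY => ?_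
    show A.symm Y ∈ K
    apply LieSubmodule.subset_lieSpan
    rcases hY with hY | hY
    · exact Or.inl (ctr_map (fun Y => by simp) hAsl hY)
    · exact Or.inr (ctr_map (fun _ => rfl) hAsl hY)
  have hKA : ∀ Y, A Y ∈ K ↔ Y ∈ K := by
    intro Y
    refine ⟨fun hY => ?_, fun hY => k1 hY⟩
    have : A.symm (A Y) ∈ K := k2 hY
    rwa [A.symm_apply_apply] at this
  have hK1 := h1 X 𝔤 μ E hE hE' T hT A hA hTE K hKA k h
  apply h4 X 𝔤 μ E hE' T hT A hTE k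
  intro B hB ε hε
  refine hK1 B (fun i => ⟨(hB i).1, (hB i).1, fun Z hZ => ?_⟩) ε hε
  obtain ⟨H, hH⟩ := h3 X 𝔤 μ E hE' (B i) (hB i).1
  have hZH : Z ∈ H := by
    apply h2 𝔤 A hA H _ Z hZ
    intro Y hY
    rw [hH]
    intro s
    apply (hB i).2.2
    rcases hY with hY | hY
    · exact Or.inl (smul_ctr hAl s hY)
    · exact Or.inr (smul_ctr hAsl s hY)
  have h5 := (hH Z).1 hZH 1
  rwa [one_smul] at h5

/-- the power of an automorphism -/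
def powT (T : X ≃ᵐ X) : ℕ → (X ≃ᵐ X)
  | 0 => MeasurableEquiv.refl X
  | q + 1 => (powT T q).trans T

theorem powT_coe (T : X ≃ᵐ X) (q : ℕ) : (powT T q : X → X) = T^[q] := by
  induction q with
  | zero => rfl
  | succ q ih =>
    rw [Function.iterate_succ', ← ih]
    rfl

theorem conj_iter {T : X ≃ᵐ X} (hT : MeasurePreserving T μ μ) {A : 𝔤 ≃ₗ[ℝ] 𝔤}
    (hTE : ∀ Y, Same μ (T ∘ E Y) (E (A Y) ∘ T)) (q : ℕ) (Y : 𝔤) :
    Same μ (T^[q] ∘ E Y) (E ((A ^ q) Y) ∘ T^[q]) := by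
  induction q with
  | zero => intro B hB; exact EventuallyEq.refl _ _
  | succ n ih =>
    have g1 : Same μ (T^[n + 1] ∘ E Y) (T ∘ (E ((A ^ n) Y) ∘ T^[n])) := by
      rw [Function.iterate_succ']
      exact ih.left hT.measurable
    have g2 : Same μ ((T ∘ E ((A ^ n) Y)) ∘ T^[n]) ((E (A ((A ^ n) Y)) ∘ T) ∘ T^[n]) :=
      (hTE _).right (hT.iterate n)
    have g3 := g1.trans g2
    rw [Function.iterate_succ'] at g3 ⊢
    rw [pow_succ']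
    exact g3

theorem mixOn_iter {T : X → X} {Q : Set X → Prop} {k q : ℕ} (hq : 1 ≤ q) (h : MixOn μ T Q k) :
    MixOn μ (T^[q]) Q k := by
  intro A hA ε hε
  obtain ⟨N, hN⟩ := h A hA ε hε
  refine ⟨N, fun m hm => ?_⟩
  have h1 := hN (fun j => q * m j) (fun j hj => by have := hm j hj; nlinarith)
  have e : ∀ i, (T^[q])^[∑ j ∈ Finset.range i, m j] = T^[∑ j ∈ Finset.range i, q * m j] := by
    intro i
    rw [← Function.iterate_mul, mul_sum]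
  simp only [e]
  exact h1

theorem mainq (h1 : S_UNI) (h2 : S_IDE) (h3 : S_STA) (h4 : S_HYP) (h5 : S_POW) (hE : GAct μ E)
    (hE' : LieAct μ E) {T : X ≃ᵐ X} (hT : MeasurePreserving T μ μ) (A : 𝔤 ≃ₗ[ℝ] 𝔤)
    (hA : ∀ Y Z : 𝔤, A ⁅Y, Z⁆ = ⁅A Y, A Z⁆) (hTE : ∀ Y, Same μ (T ∘ E Y) (E (A Y) ∘ T)) {q : ℕ}
    (hq : 1 ≤ q) (k : ℕ) (L : LieIdeal ℝ 𝔤) (hL : ∀ L' : LieIdeal ℝ 𝔤, (∀ Y ∈ ctr A, Y ∈ L') →
      (∀ Y ∈ ctr A.symm, Y ∈ L') → (∀ Y ∈ uni (A ^ q), Y ∈ L') → L ≤ L')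
    (h : MixOn μ T (fun B => MeasurableSet[mK μ E (L : Set 𝔤)] B) k) :
    MixOn μ T (fun _ => True) k := by
  have hTq : MeasurePreserving (powT T q) μ μ := by
    have := hT.iterate q
    rw [← powT_coe] at this
    exact this
  have hTEq : ∀ Y, Same μ (powT T q ∘ E Y) (E ((A ^ q) Y) ∘ powT T q) := by
    intro Y
    rw [powT_coe]
    exact conj_iter hT hTE q Y
  have hcoe : ((A ^ q : 𝔤 ≃ₗ[ℝ] 𝔤) : 𝔤 → 𝔤) = A^[q] := by
    induction q with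
    | zero => rfl
    | succ q ih =>
      have h6 : ∀ q : ℕ, ((A ^ q : 𝔤 ≃ₗ[ℝ] 𝔤) : 𝔤 → 𝔤) = A^[q] := by
        intro q
        induction q with
        | zero => rfl
        | succ q ih => rw [pow_succ', Function.iterate_succ', ← ih]; rfl
      exact h6 _
  have hcoes : (((A ^ q : 𝔤 ≃ₗ[ℝ] 𝔤).symm : 𝔤 ≃ₗ[ℝ] 𝔤) : 𝔤 → 𝔤) = A.symm^[q] := by
    have h6 : ∀ q : ℕ, (((A ^ q : 𝔤 ≃ₗ[ℝ] 𝔤).symm : 𝔤 ≃ₗ[ℝ] 𝔤) : 𝔤 → 𝔤) = A.symm^[q] := by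
      intro q
      induction q with
      | zero => rfl
      | succ q ih =>
        rw [pow_succ, Function.iterate_succ', ← ih]
        rfl
    exact h6 q
  have hmix := main1 h1 h2 h3 h4 hE hE' hTq (A ^ q) (pow_br hA q) hTEq k (by
    have h7 := mixOn_iter hq h
    rw [← powT_coe] at h7
    intro B hB ε hε
    refine h7 B (fun i => ⟨(hB i).1, (hB i).1, fun Y hY => (hB i).2.2 Y ?_⟩) ε hε
    refine hL _ (fun Y hY => ?_) (fun Y hY => ?_) (fun Y hY => ?_) hY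
    · apply (le_sup_left : LieSubmodule.lieSpan ℝ 𝔤 (ctr (A ^ q : 𝔤 ≃ₗ[ℝ] 𝔤) ∪ ctr (A ^ q : 𝔤 ≃ₗ[ℝ] 𝔤).symm) ≤ _)
      apply LieSubmodule.subset_lieSpan
      left
      rw [hcoe]
      exact ctr_iter hq hY
    · apply (le_sup_left : LieSubmodule.lieSpan ℝ 𝔤 (ctr (A ^ q : 𝔤 ≃ₗ[ℝ] 𝔤) ∪ ctr (A ^ q : 𝔤 ≃ₗ[ℝ] 𝔤).symm) ≤ _)
      apply LieSubmodule.subset_lieSpan
      right
      rw [hcoes]
      exact ctr_iter hq hY
    · apply (le_sup_right : LieSubmodule.lieSpan ℝ 𝔤 (uni (A ^ q)) ≤ _)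
      exact LieSubmodule.subset_lieSpan hY)
  rw [powT_coe] at hmix
  exact h5 X μ T hT q hq k hmix

end Pool.Agent.W42.RG
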