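import Mathlib
import Pool.Agent.W42.RG.Defs2
import Pool.Agent.W42.RG.Main

set_option autoImplicit false
set_option linter.unusedSectionVars false
set_option linter.unusedVariables false

/-!
The induction over the ideals for an arbitrary automorphism.
-/

namespace Pool.Agent.W42.RG

open Finset Filter Topology MeasureTheory Pool.Agent.W42.RN Pool.Agent.W42.RL

section algebra

variable {𝔤 : Type} [LieRing 𝔤] [LieAlgebra ℝ 𝔤] [FiniteDimensional ℝ 𝔤] [TopologicalSpace 𝔤]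
  [IsTopologicalAddGroup 𝔤] [ContinuousSMul ℝ 𝔤] [T2Space 𝔤]

/-- `A`-invariant ideals: both directions -/
theorem inv_iff {A : 𝔤 ≃ₗ[ℝ] 𝔤} (hA : ∀ Y Z : 𝔤, A ⁅Y, Z⁆ = ⁅A Y, A Z⁆) {K : LieIdeal ℝ 𝔤}
    (h1 : ∀ Y ∈ K, A Y ∈ K) (h2 : ∀ Y ∈ K, A.symm Y ∈ K) (Y : 𝔤) : A Y ∈ K ↔ Y ∈ K := by
  refine ⟨fun h => ?_, h1 Y⟩
  have := h2 _ h
  rwa [A.symm_apply_apply] at this

/-- the ideal generated by an invariant set -/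
theorem span_inv {A : 𝔤 ≃ₗ[ℝ] 𝔤} (hA : ∀ Y Z : 𝔤, A ⁅Y, Z⁆ = ⁅A Y, A Z⁆) {s : Set 𝔤}
    {K : LieIdeal ℝ 𝔤} (hK : ∀ Y, A Y ∈ K ↔ Y ∈ K)
    (h1 : ∀ Y ∈ s, A Y ∈ (K ⊔ LieSubmodule.lieSpan ℝ 𝔤 s : LieIdeal ℝ 𝔤))
    (h2 : ∀ Y ∈ s, A.symm Y ∈ (K ⊔ LieSubmodule.lieSpan ℝ 𝔤 s : LieIdeal ℝ 𝔤)) (Y : 𝔤) :
    A Y ∈ (K ⊔ LieSubmodule.lieSpan ℝ 𝔤 s : LieIdeal ℝ 𝔤) ↔
      Y ∈ (K ⊔ LieSubmodule.lieSpan ℝ 𝔤 s : LieIdeal ℝ 𝔤) := by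
  set K' : LieIdeal ℝ 𝔤 := K ⊔ LieSubmodule.lieSpan ℝ 𝔤 s with hK'
  have hKK' : K ≤ K' := le_sup_left
  have g1 : K' ≤ preI A hA K' := by
    refine sup_le (fun Y hY => ?_) (LieSubmodule.lieSpan_le.2 fun Y hY => h1 Y hY)
    show A Y ∈ K'
    exact hKK' ((hK Y).2 hY)
  have g2 : K' ≤ preI A.symm (symm_br hA) K' := by
    refine sup_le (fun Y hY => ?_) (LieSubmodule.lieSpan_le.2 fun Y hY => h2 Y hY)
    show A.symm Y ∈ K'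
    apply hKK'
    rw [← hK, A.apply_symm_apply]
    exact hY
  have f1 : ∀ Y ∈ K', A Y ∈ K' := fun Y hY => g1 hY
  have f2 : ∀ Y ∈ K', A.symm Y ∈ K' := fun Y hY => g2 hY
  exact inv_iff hA f1 f2 Y

/-- brackets with an invariant ideal -/
theorem lie_inv {A : 𝔤 ≃ₗ[ℝ] 𝔤} (hA : ∀ Y Z : 𝔤, A ⁅Y, Z⁆ = ⁅A Y, A Z⁆)
    {K K' : LieIdeal ℝ 𝔤} (hK : ∀ Y, A Y ∈ K ↔ Y ∈ K) (hK' : ∀ Y, A Y ∈ K' ↔ Y ∈ K') (Y : 𝔤) :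
    A Y ∈ (K ⊔ ⁅(⊤ : LieIdeal ℝ 𝔤), K'⁆ : LieIdeal ℝ 𝔤) ↔
      Y ∈ (K ⊔ ⁅(⊤ : LieIdeal ℝ 𝔤), K'⁆ : LieIdeal ℝ 𝔤) := by
  set J : LieIdeal ℝ 𝔤 := K ⊔ ⁅(⊤ : LieIdeal ℝ 𝔤), K'⁆ with hJ
  have hKJ : K ≤ J := le_sup_left
  have hbr : ∀ Y Z : 𝔤, Z ∈ K' → ⁅Y, Z⁆ ∈ J := fun Y Z hZ =>
    (le_sup_right : ⁅(⊤ : LieIdeal ℝ 𝔤), K'⁆ ≤ J) (LieSubmodule.lie_mem_lie (LieSubmodule.mem_top Y) hZ)
  have g1 : J ≤ preI A hA J := by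
    refine sup_le (fun Y hY => ?_) ?_
    · show A Y ∈ J
      exact hKJ ((hK Y).2 hY)
    · rw [LieSubmodule.lieIdeal_oper_eq_span]
      refine LieSubmodule.lieSpan_le.2 ?_
      rintro _ ⟨Y, Z, rfl⟩
      show A ⁅(Y : 𝔤), (Z : 𝔤)⁆ ∈ J
      rw [hA]
      exact hbr _ _ ((hK' _).2 Z.2)
  have g2 : J ≤ preI A.symm (symm_br hA) J := by
    refine sup_le (fun Y hY => ?_) ?_
    · show A.symm Y ∈ J
      apply hKJ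
      rw [← hK, A.apply_symm_apply]
      exact hY
    · rw [LieSubmodule.lieIdeal_oper_eq_span]
      refine LieSubmodule.lieSpan_le.2 ?_
      rintro _ ⟨Y, Z, rfl⟩
      show A.symm ⁅(Y : 𝔤), (Z : 𝔤)⁆ ∈ J
      rw [symm_br hA]
      apply hbr
      rw [← hK', A.apply_symm_apply]
      exact Z.2
  have f1 : ∀ Y ∈ J, A Y ∈ J := fun Y hY => g1 hY
  have f2 : ∀ Y ∈ J, A.symm Y ∈ J := fun Y hY => g2 hY
  exact inv_iff hA f1 f2 Y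

end algebra

theorem nw_iter_succ {V : Type} [AddCommGroup V] [Module ℝ V] (A : V ≃ₗ[ℝ] V) (ω : ℂ)
    (φ : ℂ →ₗ[ℝ] V) (d : ℕ) (ζ : ℂ) :
    (nw A ω)^[d + 1] φ ζ = A ((nw A ω)^[d] φ ζ) - (nw A ω)^[d] φ (ω * ζ) := by
  rw [Function.iterate_succ_apply']
  rfl

variable {X : Type} [MeasurableSpace X]
variable {𝔤 : Type} [LieRing 𝔤] [LieAlgebra ℝ 𝔤] [FiniteDimensional ℝ 𝔤] [TopologicalSpace 𝔤]
  [IsTopologicalAddGroup 𝔤] [ContinuousSMul ℝ 𝔤] [T2Space 𝔤]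
variable {μ : Measure X} [IsProbabilityMeasure μ] {E : 𝔤 → X → X}

theorem top_main (hELL2 : S_ELL2) (hIRA : S_IRA) (hIRB : S_IRB) (hE : GAct μ E) (hE' : LieAct μ E)
    {T : X ≃ᵐ X} (hT : MeasurePreserving T μ μ) (A : 𝔤 ≃ₗ[ℝ] 𝔤)
    (hA : ∀ Y Z : 𝔤, A ⁅Y, Z⁆ = ⁅A Y, A Z⁆) (hTE : ∀ Y, Same μ (T ∘ E Y) (E (A Y) ∘ T)) (k : ℕ)
    (L : LieIdeal ℝ 𝔤) (hL : ∀ Y, (∀ J : LieIdeal ℝ 𝔤, Ell A J.toSubmodule → Y ∈ J) → Y ∈ L)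
    (hL' : ∀ J : LieIdeal ℝ 𝔤, Ell A J.toSubmodule → L ≤ J) (K₁ : LieIdeal ℝ 𝔤)
    (hexi : ∀ K : LieIdeal ℝ 𝔤, K₁ ≤ K → (∀ Y, A Y ∈ K ↔ Y ∈ K) → ¬ Ell A K.toSubmodule →
      ∃ ω : ℂ, ‖ω‖ = 1 ∧ (∀ n : ℕ, 1 ≤ n → ω ^ n ≠ 1) ∧ ∃ (φ : ℂ →ₗ[ℝ] 𝔤) (d : ℕ), 1 ≤ d ∧
        (∀ ζ, (nw A ω)^[d + 1] φ ζ ∈ K) ∧ ∃ ζ, (nw A ω)^[d] φ ζ ∉ K)
    (h : MixOn μ T (fun B => MeasurableSet[mK μ E (L : Set 𝔤)] B) k) :
    ∀ K : LieIdeal ℝ 𝔤, K₁ ≤ K → K ≤ L → (∀ Y, A Y ∈ K ↔ Y ∈ K) →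
      MixOn μ T (fun B => MeasurableSet[mK μ E (K : Set 𝔤)] B) k := by
  have hwf := (LieSubmodule.wellFoundedGT_of_noetherian ℝ 𝔤 𝔤).wf
  intro K
  induction K using hwf.induction with
  | _ K ih =>
  intro hK1 hKL hKA
  by_cases hell : Ell A K.toSubmodule
  · have h1 := hL' K hell
    intro B hB ε hε
    exact h B (fun i => ⟨(hB i).1, (hB i).1, fun V hV => (hB i).2.2 V (h1 hV)⟩) ε hε
  obtain ⟨ω, hω1, hω, φ, d, hd, hφ, ζ₀, hζ₀⟩ := hexi K hK1 hKA hell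
  set ψ : ℂ →ₗ[ℝ] 𝔤 := (nw A ω)^[d] φ with hψ
  set K' : LieIdeal ℝ 𝔤 := K ⊔ LieSubmodule.lieSpan ℝ 𝔤 (Set.range ψ) with hK'
  have hKK' : K ≤ K' := le_sup_left
  have hψK' : ∀ ζ, ψ ζ ∈ K' := fun ζ =>
    (le_sup_right : LieSubmodule.lieSpan ℝ 𝔤 (Set.range ψ) ≤ K') (LieSubmodule.subset_lieSpan ⟨ζ, rfl⟩)
  have hω0 : ω ≠ 0 := by
    intro h0
    rw [h0, norm_zero] at hω1
    exact zero_ne_one hω1
  have hAψ : ∀ ζ, A (ψ ζ) - ψ (ω * ζ) ∈ K := by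
    intro ζ
    have := hφ ζ
    rw [nw_iter_succ] at this
    exact this
  have hK'A : ∀ Y, A Y ∈ K' ↔ Y ∈ K' := by
    apply span_inv hA hKA
    · rintro _ ⟨ζ, rfl⟩
      have h1 := K'.toSubmodule.add_mem (hKK' (hAψ ζ)) (hψK' (ω * ζ))
      rw [sub_add_cancel] at h1
      exact h1
    · rintro _ ⟨ζ, rfl⟩
      have h1 := hAψ (ω⁻¹ * ζ)
      rw [← mul_assoc, mul_inv_cancel₀ hω0, one_mul] at h1
      have h2 : A (ψ (ω⁻¹ * ζ) - A.symm (ψ ζ)) ∈ K := by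
        rw [map_sub, A.apply_symm_apply]; exact h1
      have h3 := hKK' ((hKA _).1 h2)
      have h4 := K'.toSubmodule.sub_mem (hψK' (ω⁻¹ * ζ)) h3
      rw [sub_sub_cancel] at h4
      exact h4
  have hlt : K < K' := by
    refine lt_of_le_of_ne hKK' fun h1 => hζ₀ ?_
    rw [h1]
    exact hψK' ζ₀
  have hK'L : K' ≤ L := by
    refine sup_le hKL (LieSubmodule.lieSpan_le.2 ?_)
    rintro _ ⟨ζ, rfl⟩
    apply hL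
    intro J hJ
    exact hELL2 𝔤 A J.toSubmodule hJ ω hω1 φ d hd (fun ζ => (hKL.trans (hL' J hJ)) (hφ ζ)) ζ
  have hmixK' := ih K' hlt (hK1.trans hKK') hK'L hK'A
  -- the intermediate ideal
  set K₂ : LieIdeal ℝ 𝔤 := K ⊔ ⁅(⊤ : LieIdeal ℝ 𝔤), K'⁆ with hK₂
  have hKK₂ : K ≤ K₂ := le_sup_left
  have hK₂A : ∀ Y, A Y ∈ K₂ ↔ Y ∈ K₂ := lie_inv hA hKA hK'A
  have hK₂K' : K₂ ≤ K' := sup_le hKK' (LieSubmodule.lie_le_right _ _)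
  have hsup : K₂ ⊔ LieSubmodule.lieSpan ℝ 𝔤 (Set.range ψ) = K' := by
    apply le_antisymm
    · exact sup_le hK₂K' le_sup_right
    · exact sup_le (hKK₂.trans le_sup_left) le_sup_right
  have hcent : ∀ (Y : 𝔤) (ζ : ℂ), ⁅Y, ψ ζ⁆ ∈ K₂ := fun Y ζ =>
    (le_sup_right : ⁅(⊤ : LieIdeal ℝ 𝔤), K'⁆ ≤ K₂) (LieSubmodule.lie_mem_lie (LieSubmodule.mem_top Y) (hψK' ζ))
  have hmixK₂ := hIRB X 𝔤 μ E hE' T hT A hTE K₂ hK₂A ω hω1 hω φ d hd (fun ζ => hKK₂ (hφ ζ)) hcent k (by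
    rw [← hψ, hsup]
    exact hmixK')
  exact hIRA X 𝔤 μ E hE hE' T hT A hA hTE K hKA ω hω1 φ d hd hφ k hmixK₂

/-- the general theorem -/
theorem top (h1 : S_UNI) (h2 : S_IDE) (h3 : S_STA) (h4 : S_HYP) (h5 : S_POW) (hELL1 : S_ELL1)
    (hELL2 : S_ELL2) (hEXI : S_EXI) (hIRA : S_IRA) (hIRB : S_IRB) (hE : GAct μ E)
    (hE' : LieAct μ E) {T : X ≃ᵐ X} (hT : MeasurePreserving T μ μ) (A : 𝔤 ≃ₗ[ℝ] 𝔤)
    (hA : ∀ Y Z : 𝔤, A ⁅Y, Z⁆ = ⁅A Y, A Z⁆) (hTE : ∀ Y, Same μ (T ∘ E Y) (E (A Y) ∘ T)) (k : ℕ)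
    (L : LieIdeal ℝ 𝔤) (hL : ∀ Y, (∀ J : LieIdeal ℝ 𝔤, Ell A J.toSubmodule → Y ∈ J) → Y ∈ L)
    (hL' : ∀ J : LieIdeal ℝ 𝔤, Ell A J.toSubmodule → L ≤ J)
    (h : MixOn μ T (fun B => MeasurableSet[mK μ E (L : Set 𝔤)] B) k) :
    MixOn μ T (fun _ => True) k := by
  obtain ⟨q, hq, hexi⟩ := hEXI 𝔤 A
  have hAl : IsLinearMap ℝ (A : 𝔤 → 𝔤) := ⟨A.map_add, A.map_smul⟩
  have hAsl : IsLinearMap ℝ (A.symm : 𝔤 → 𝔤) := ⟨A.symm.map_add, A.symm.map_smul⟩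
  set s : Set 𝔤 := ctr A ∪ ctr A.symm ∪ uni (A ^ q) with hs
  set K₁ : LieIdeal ℝ 𝔤 := ⊥ ⊔ LieSubmodule.lieSpan ℝ 𝔤 s with hK₁
  have hsK : ∀ Y ∈ s, Y ∈ K₁ := fun Y hY =>
    (le_sup_right : LieSubmodule.lieSpan ℝ 𝔤 s ≤ K₁) (LieSubmodule.subset_lieSpan hY)
  have huni : ∀ (B : 𝔤 ≃ₗ[ℝ] 𝔤), (∀ Y, B ((A ^ q) Y) = (A ^ q) (B Y)) →
      ∀ Y ∈ uni (A ^ q), B Y ∈ uni (A ^ q) := by
    rintro B hB Y ⟨V, m, hV, rfl⟩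
    refine ⟨B V, m, ?_, ?_⟩
    · have h6 : ∀ (m : ℕ) (V : 𝔤), ((nA (A ^ q)) ^ m) (B V) = B (((nA (A ^ q)) ^ m) V) := by
        intro m
        induction m with
        | zero => intro V; rfl
        | succ m ih =>
          intro V
          rw [pow_succ, Module.End.mul_apply, Module.End.mul_apply]
          have : nA (A ^ q) (B V) = B (nA (A ^ q) V) := by
            show (A ^ q) (B V) - B V = B ((A ^ q) V - V)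
            rw [map_sub, hB]
          rw [this, ih]
      rw [h6, hV, map_zero]
    · rw [map_sub, hB]
  have hcA : ∀ Y, A ((A ^ q) Y) = (A ^ q) (A Y) := by
    intro Y
    have : A * A ^ q = A ^ q * A := (pow_succ' A q).symm.trans (pow_succ A q)
    exact congrArg (fun f : 𝔤 ≃ₗ[ℝ] 𝔤 => f Y) this
  have hcAs : ∀ Y, A.symm ((A ^ q) Y) = (A ^ q) (A.symm Y) := by
    intro Y
    apply A.injective
    rw [hcA, A.apply_symm_apply, A.apply_symm_apply]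
  have hbot : ∀ Y, A Y ∈ (⊥ : LieIdeal ℝ 𝔤) ↔ Y ∈ (⊥ : LieIdeal ℝ 𝔤) := by
    intro Y
    rw [LieSubmodule.mem_bot, LieSubmodule.mem_bot]
    exact ⟨fun h => by simpa using h, fun h => by rw [h, map_zero]⟩
  have hK₁A : ∀ Y, A Y ∈ K₁ ↔ Y ∈ K₁ := by
    apply span_inv hA hbot
    · rintro Y ((hY | hY) | hY)
      · exact hsK _ (Or.inl (Or.inl (ctr_map (fun _ => rfl) hAl hY)))
      · exact hsK _ (Or.inl (Or.inr (ctr_map (fun Y => by simp) hAl hY)))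
      · exact hsK _ (Or.inr (huni A hcA Y hY))
    · rintro Y ((hY | hY) | hY)
      · exact hsK _ (Or.inl (Or.inl (ctr_map (fun Y => by simp) hAsl hY)))
      · exact hsK _ (Or.inl (Or.inr (ctr_map (fun _ => rfl) hAsl hY)))
      · exact hsK _ (Or.inr (huni A.symm hcAs Y hY))
  have hK₁L : K₁ ≤ L := by
    refine sup_le bot_le (LieSubmodule.lieSpan_le.2 fun Y hY => ?_)
    apply hL
    intro J hJ
    obtain ⟨g1, g2, g3⟩ := hELL1 𝔤 A J.toSubmodule hJ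
    rcases hY with (hY | hY) | hY
    · exact g1 Y hY
    · exact g2 Y hY
    · exact g3 q hq Y hY
  have hmix := top_main hELL2 hIRA hIRB hE hE' hT A hA hTE k L hL hL' K₁ (fun K hK hKA hell =>
    hexi K.toSubmodule hKA (fun Y hY => hK (hsK Y (Or.inl (Or.inl hY))))
      (fun Y hY => hK (hsK Y (Or.inl (Or.inr hY)))) (fun Y hY => hK (hsK Y (Or.inr hY))) hell)
    h K₁ le_rfl hK₁L hK₁A
  refine mainq h1 h2 h3 h4 h5 hE hE' hT A hA hTE hq k K₁ ?_ hmix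
  intro L' g1 g2 g3
  refine sup_le bot_le (LieSubmodule.lieSpan_le.2 ?_)
  rintro Y ((hY | hY) | hY)
  · exact g1 Y hY
  · exact g2 Y hY
  · exact g3 Y hY

end Pool.Agent.W42.RG
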