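import Mathlib
import Pool.Agent.W42.RG.Top
import Pool.Agent.W32.LX.SUB
import Pool.Agent.W21.LX.SMALL
import Pool.Agent.W338.LX.STAY
import Pool.Agent.W940.LX.REC
import Pool.Agent.W930.LX.NORM
import Pool.Agent.W215.LX.FIN
import Pool.Agent.W215.LX.MAUT
import Pool.Agent.W215.LX.DER
import Pool.Agent.W490.LX.LA
import Pool.Agent.W356.LX.JAC
import Pool.Agent.W356.LX.POLY
import Pool.Agent.W290.LX.NILW
import Pool.Agent.W381.LX.IDE
import Pool.Agent.W356.LX.TROT
import Pool.Agent.W637.LX.TRANS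
import Pool.Agent.W334.LX.STA
import Pool.Agent.W52.LX.CE
import Pool.Agent.W42.RG.Dens
import Pool.Agent.W481.LX.COB
import Pool.Agent.W991.LX.One
import Pool.Agent.W177.LX.HYP
import Pool.Agent.W933.LX.SHEAR
import Pool.Agent.W319.LX.UNI
import Pool.Agent.W52.LX.POW
import Pool.Agent.W922.LY.ELL1
import Pool.Agent.W797.LY.ELL2
import Pool.Agent.W460.LY.EXI
import Pool.Agent.W591.LY.RPOLY
import Pool.Agent.W672.LY.NILL
import Pool.Agent.W672.LY.ARI
import Pool.Agent.W451.LY.CHAR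
import Pool.Agent.W403.LY.LIN
import Pool.Agent.W613.LY.JOINT
import Pool.Agent.W685.LY.RLSH
import Pool.Agent.W333.LY.RW
import Pool.Agent.W978.LY.RL
import Pool.Agent.W191.LY.RA
import Pool.Agent.W637.LY.RB
import Pool.Agent.W335.LY.Ron
import Pool.Agent.W756.LY.MAUE
import Pool.Agent.W162.LY.RFL
import Pool.Agent.W563.LY.RSHR
import Pool.Agent.W249.LY.IRA
import Pool.Agent.W975.LY.IRB

set_option autoImplicit false

/-!
The parts of the proof of `top`, put together.
-/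

namespace Pool.Agent.W42.RG.All

open Pool.Agent.W42.RG

theorem sub : S_SUB := Pool.Agent.W32.LX.t_SUB
theorem small : S_SMALL := Pool.Agent.W21.LX.t_SMALL sub
theorem stay : S_STAY := Pool.Agent.W338.LX.Stay.t_STAY small
theorem recu : S_REC := Pool.Agent.W940.LX.t_REC
theorem norm : S_NORM := Pool.Agent.W930.LX.t_NORM sub
theorem fin : S_FIN := Pool.Agent.W215.LX.t_FIN sub small stay
theorem maut : S_MAUT := Pool.Agent.W215.LX.t_MAUT sub stay recu norm fin
theorem der : S_DER := Pool.Agent.W215.LX.t_DER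
theorem la : S_LA := Pool.Agent.W490.LX.t_LA
theorem jac : S_JAC := Pool.Agent.W356.LX.t_JAC
theorem poly : S_POLY := Pool.Agent.W356.LX.t_POLY
theorem nilw : S_NILW := Pool.Agent.W290.LX.t_NILW jac
theorem ide : S_IDE := Pool.Agent.W381.LX.t_IDE la
theorem trot : S_TROT := Pool.Agent.W356.LX.t_TROT
theorem maux : S_MAUX := Pool.Agent.W637.LX.t_TRANS maut
theorem sta : S_STA := Pool.Agent.W334.LX.t_STA der
theorem ce : S_CE := Pool.Agent.W52.LX.t_CE
theorem dens : S_DENS := Pool.Agent.W42.RG.Dens.t_DENS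
theorem cob : S_COB := Pool.Agent.W481.LX.t_COB
theorem one : S_ONE := Pool.Agent.W991.LX.t_ONE ce dens cob
theorem hyp : S_HYP := Pool.Agent.W177.LX.t_HYP ce dens one
theorem shear : S_SHEAR := Pool.Agent.W933.LX.t_SHEAR poly
theorem unip : S_UNI := Pool.Agent.W319.LX.t_UNI nilw maux shear
theorem pow : S_POW := Pool.Agent.W52.LX.t_POW
theorem ell1 : S_ELL1 := Pool.Agent.W922.LY.t_ELL1
theorem ell2 : S_ELL2 := Pool.Agent.W797.LY.t_ELL2
theorem exi : S_EXI := Pool.Agent.W460.LY.t_EXI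
theorem rpoly : S_RPOLY := Pool.Agent.W591.LY.t_RPOLY
theorem nill : S_NILL := Pool.Agent.W672.LY.t_NILL rpoly
theorem ari : S_ARI := Pool.Agent.W672.LY.t_ARI
theorem char : S_CHAR := Pool.Agent.W451.LY.t_CHAR
theorem lin : S_LIN := Pool.Agent.W403.LY.t_LIN maut sub
theorem joint : S_JOINT := Pool.Agent.W613.LY.t_JOINT
theorem rlsh : S_RLSH := Pool.Agent.W685.LY.t_RLSH
theorem rw' : S_RW := Pool.Agent.W333.LY.t_RW rlsh
theorem rl : S_RL := Pool.Agent.W978.LYRL.t_RL rw'
theorem ra : S_RA := Pool.Agent.W191.LY.t_RA rl ce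
theorem rb : S_RB := Pool.Agent.W637.LY.t_RB rl joint char ari
theorem raon : S_RAon := Pool.Agent.W335.LY.Ron.t_RAon ra
theorem rbon : S_RBon := Pool.Agent.W335.LY.Ron.t_RBon rb
theorem maue : S_MAUE := Pool.Agent.W756.LY.t_MAUE lin sub
theorem rfl' : S_RFL := Pool.Agent.W162.LY.t_RFL
theorem rshr : S_RSHR := Pool.Agent.W563.LY.t_RSHR rpoly
theorem ira : S_IRA := Pool.Agent.W249.LY.t_IRA raon maue nill rfl' rshr
theorem irb : S_IRB := Pool.Agent.W975.LY.t_IRB rbon rfl' rshr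

end Pool.Agent.W42.RG.All
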