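import Mathlib
import Pool.Agent.W42.RN.Ord

set_option autoImplicit false
set_option linter.unusedSectionVars false
set_option linter.unusedVariables false

/-!
Composition with a commuting automorphism whose powers are relatively compact.
-/

namespace Pool.Agent.W42.RG

open Finset Filter Topology MeasureTheory Pool.Agent.W42.RN

variable {X : Type} [MeasurableSpace X] {μ : Measure X} [IsProbabilityMeasure μ]

/-- the orbits of measurable sets under the powers of `R` are totally bounded -/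
def RelCpt (μ : Measure X) (R : X ≃ᵐ X) : Prop :=
  ∀ B, MeasurableSet B → ∀ ε : ℝ, 0 < ε → ∃ F : Finset (Set X), (∀ B' ∈ F, MeasurableSet B') ∧
    ∀ m : ℤ, ∃ B' ∈ F, μ.real (symmDiff (pw R m ⁻¹' B) B') < ε

theorem relCpt_symm {R : X ≃ᵐ X} (h : RelCpt μ R) : RelCpt μ R.symm := by
  intro B hB ε hε
  obtain ⟨F, hF, h1⟩ := h B hB ε hε
  refine ⟨F, hF, fun m => ?_⟩
  have e : pw R.symm m = pw R (-m) := by
    unfold pw
    have : (R.symm.toEquiv : Equiv.Perm X) = (R.toEquiv : Equiv.Perm X)⁻¹ := rfl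
    rw [this, zpow_neg, inv_zpow]
  rw [e]
  exact h1 (-m)

theorem iter_comm {R S : X → X} (hR : MeasurePreserving R μ μ) (hS : MeasurePreserving S μ μ)
    (h : Same μ (R ∘ S) (S ∘ R)) (n : ℕ) : Same μ ((R ∘ S)^[n]) (R^[n] ∘ S^[n]) := by
  have h1 : ∀ n : ℕ, Same μ (S ∘ R^[n]) (R^[n] ∘ S) := by
    intro n
    induction n with
    | zero => intro B _; exact EventuallyEq.refl _ _
    | succ n ih =>
      have g1 : Same μ ((S ∘ R) ∘ R^[n]) ((R ∘ S) ∘ R^[n]) := h.symm.right (hR.iterate n)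
      have g2 : Same μ (R ∘ (S ∘ R^[n])) (R ∘ (R^[n] ∘ S)) := ih.left hR.measurable
      have g3 := g1.trans g2
      rw [Function.iterate_succ']
      exact g3
  induction n with
  | zero => intro B _; exact EventuallyEq.refl _ _
  | succ n ih =>
    have g1 : Same μ ((R ∘ S) ∘ (R ∘ S)^[n]) ((R ∘ S) ∘ (R^[n] ∘ S^[n])) :=
      ih.left (hR.measurable.comp hS.measurable)
    have g2 : Same μ (R ∘ ((S ∘ R^[n]) ∘ S^[n])) (R ∘ ((R^[n] ∘ S) ∘ S^[n])) :=
      ((h1 n).right (hS.iterate n)).left hR.measurable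
    rw [Function.iterate_succ', Function.iterate_succ' R, Function.iterate_succ' S]
    exact g1.trans g2

theorem inter_diff {k : ℕ} {A B : ℕ → Set X} (hA : ∀ i, MeasurableSet (A i))
    (hB : ∀ i, MeasurableSet (B i)) :
    |μ.real (⋂ i ∈ Finset.range (k + 1), A i) - μ.real (⋂ i ∈ Finset.range (k + 1), B i)| ≤
      ∑ i ∈ Finset.range (k + 1), μ.real (symmDiff (A i) (B i)) := by
  have h1 : symmDiff (⋂ i ∈ Finset.range (k + 1), A i) (⋂ i ∈ Finset.range (k + 1), B i) ⊆
      ⋃ i ∈ Finset.range (k + 1), symmDiff (A i) (B i) := by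
    intro p hp
    simp only [Set.mem_symmDiff, Set.mem_iInter, Set.mem_iUnion] at hp ⊢
    rcases hp with ⟨h2, h3⟩ | ⟨h2, h3⟩
    · push Not at h3
      obtain ⟨i, hi, h4⟩ := h3
      exact ⟨i, hi, Or.inl ⟨h2 i hi, h4⟩⟩
    · push Not at h3
      obtain ⟨i, hi, h4⟩ := h3
      exact ⟨i, hi, Or.inr ⟨h2 i hi, h4⟩⟩
  have hmA : MeasurableSet (⋂ i ∈ Finset.range (k + 1), A i) :=
    MeasurableSet.biInter (Set.to_countable _) fun i _ => hA i
  have hmB : MeasurableSet (⋂ i ∈ Finset.range (k + 1), B i) :=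
    MeasurableSet.biInter (Set.to_countable _) fun i _ => hB i
  calc _ ≤ μ.real (symmDiff (⋂ i ∈ Finset.range (k + 1), A i) (⋂ i ∈ Finset.range (k + 1), B i)) :=
        abs_measureReal_sub_le_measureReal_symmDiff hmA.nullMeasurableSet hmB.nullMeasurableSet
    _ ≤ μ.real (⋃ i ∈ Finset.range (k + 1), symmDiff (A i) (B i)) :=
        measureReal_mono h1 (measure_ne_top μ _)
    _ ≤ _ := measureReal_biUnion_finset_le _ _

theorem prod_diff {k : ℕ} {A B : ℕ → Set X} (hA : ∀ i, MeasurableSet (A i))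
    (hB : ∀ i, MeasurableSet (B i)) :
    |∏ i ∈ Finset.range (k + 1), μ.real (A i) - ∏ i ∈ Finset.range (k + 1), μ.real (B i)| ≤
      ∑ i ∈ Finset.range (k + 1), μ.real (symmDiff (A i) (B i)) := by
  have hle : ∀ C : Set X, ‖((μ.real C : ℝ) : ℂ)‖ ≤ 1 := by
    intro C
    rw [Complex.norm_real, Real.norm_eq_abs, abs_of_nonneg measureReal_nonneg]
    exact measureReal_le_one
  have h1 := prod_sub_le (Finset.range (k + 1)) (fun i => ((μ.real (A i) : ℝ) : ℂ))
    (fun i => ((μ.real (B i) : ℝ) : ℂ)) 1 le_rfl (fun i => hle _) (fun i => hle _)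
  rw [one_pow, one_mul, ← Complex.ofReal_prod, ← Complex.ofReal_prod, ← Complex.ofReal_sub,
    Complex.norm_real, Real.norm_eq_abs] at h1
  refine h1.trans (sum_le_sum fun i _ => ?_)
  rw [← Complex.ofReal_sub, Complex.norm_real, Real.norm_eq_abs]
  exact abs_measureReal_sub_le_measureReal_symmDiff (hA i).nullMeasurableSet (hB i).nullMeasurableSet

theorem mixOn_cpt {R S : X ≃ᵐ X} (hR : MeasurePreserving R μ μ) (hS : MeasurePreserving S μ μ)
    (hRS : Same μ (R ∘ S) (S ∘ R)) (hc : RelCpt μ R) (k : ℕ) (h : MixOn μ S (fun _ => True) k) :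
    MixOn μ (R ∘ S) (fun _ => True) k := by
  classical
  intro A hA ε hε
  have hk : (0 : ℝ) < 4 * (k + 1) := by positivity
  choose F hF hF2 using fun i => hc (A i) (hA i).1 (ε / (4 * (k + 1))) (by positivity)
  -- all choices
  set G : Finset (Fin (k + 1) → Set X) := Fintype.piFinset fun i => F i with hG
  set ext : (Fin (k + 1) → Set X) → ℕ → Set X := fun c i => if hi : i < k + 1 then c ⟨i, hi⟩ else ∅ with hext
  have hGm : ∀ c ∈ G, ∀ i, MeasurableSet (ext c i) := by
    intro c hc i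
    simp only [hext]
    split_ifs with hi
    · exact hF _ _ (Fintype.mem_piFinset.1 hc ⟨i, hi⟩)
    · exact MeasurableSet.empty
  choose! N hN using fun (c : Fin (k + 1) → Set X) (hc : c ∈ G) =>
    h (ext c) (fun i => ⟨hGm c hc i, trivial⟩) (ε / 2) (by positivity)
  refine ⟨G.sup N, fun m hm => ?_⟩
  set s : ℕ → ℕ := fun i => ∑ j ∈ Finset.range i, m j with hs
  choose B hB hB2 using fun i => hF2 i (s i)
  set c : Fin (k + 1) → Set X := fun i => B i with hcd
  have hcG : c ∈ G := Fintype.mem_piFinset.2 fun i => hB i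
  have h1 := hN c hcG m (fun j hj => (le_sup (f := N) hcG).trans (hm j hj))
  have hBm : ∀ i, MeasurableSet (B i) := fun i => hF i _ (hB i)
  have hec : ∀ i ∈ Finset.range (k + 1), ext c i = B i := by
    intro i hi
    rw [mem_range] at hi
    simp only [hext, dif_pos hi, hcd]
  have e1 : (⋂ i ∈ Finset.range (k + 1), S^[∑ j ∈ Finset.range i, m j] ⁻¹' ext c i) =
      ⋂ i ∈ Finset.range (k + 1), S^[s i] ⁻¹' B i := by
    refine Set.iInter₂_congr fun i hi => ?_
    rw [hec i hi]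
  rw [e1, prod_congr rfl fun i hi => by rw [hec i hi]] at h1
  have hRm : ∀ n : ℕ, Measurable (R^[n]) := fun n => (hR.iterate n).measurable
  have e2 : μ.real (⋂ i ∈ Finset.range (k + 1), (R ∘ S)^[s i] ⁻¹' A i) =
      μ.real (⋂ i ∈ Finset.range (k + 1), S^[s i] ⁻¹' (R^[s i] ⁻¹' A i)) := by
    apply measureReal_congr
    have h3 : ∀ i ∈ Finset.range (k + 1), (R ∘ S)^[s i] ⁻¹' A i =ᵐ[μ] S^[s i] ⁻¹' (R^[s i] ⁻¹' A i) :=
      fun i _ => iter_comm hR hS hRS (s i) (A i) (hA i).1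
    have h4 := (ae_ball_iff (Set.to_countable (↑(Finset.range (k + 1)) : Set ℕ))).2
      (fun i hi => eventuallyEq_set.1 (h3 i (by simpa using hi)))
    rw [eventuallyEq_set]
    filter_upwards [h4] with p hp
    simp only [Set.mem_iInter]
    constructor
    · intro h5 i hi
      exact (hp i (by simpa using hi)).1 (h5 i hi)
    · intro h5 i hi
      exact (hp i (by simpa using hi)).2 (h5 i hi)
  have hd : ∀ i, μ.real (symmDiff (R^[s i] ⁻¹' A i) (B i)) < ε / (4 * (k + 1)) := by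
    intro i
    have := hB2 i
    rwa [pw_nat] at this
  have hsum : ∑ i ∈ Finset.range (k + 1), μ.real (symmDiff (R^[s i] ⁻¹' A i) (B i)) ≤ ε / 4 := by
    calc _ ≤ ∑ _i ∈ Finset.range (k + 1), ε / (4 * (k + 1)) := sum_le_sum fun i _ => (hd i).le
      _ = ε / 4 := by
        rw [sum_const, card_range, nsmul_eq_mul]
        push_cast
        field_simp
  have h2 : |μ.real (⋂ i ∈ Finset.range (k + 1), S^[s i] ⁻¹' (R^[s i] ⁻¹' A i)) -
      μ.real (⋂ i ∈ Finset.range (k + 1), S^[s i] ⁻¹' B i)| ≤ ε / 4 := by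
    refine (inter_diff (fun i => (hS.iterate (s i)).measurable (hRm (s i) (hA i).1))
      (fun i => (hS.iterate (s i)).measurable (hBm i))).trans (le_trans (le_of_eq ?_) hsum)
    refine sum_congr rfl fun i _ => ?_
    have h3 : symmDiff (S^[s i] ⁻¹' (R^[s i] ⁻¹' A i)) (S^[s i] ⁻¹' B i) =
        S^[s i] ⁻¹' symmDiff (R^[s i] ⁻¹' A i) (B i) := by
      rw [Set.preimage_symmDiff]
    rw [h3, (hS.iterate (s i)).measureReal_preimage
      (((hRm (s i) (hA i).1).symmDiff (hBm i)).nullMeasurableSet)]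
  have h3 : |∏ i ∈ Finset.range (k + 1), μ.real (A i) - ∏ i ∈ Finset.range (k + 1), μ.real (B i)| ≤ ε / 4 := by
    have e3 : ∏ i ∈ Finset.range (k + 1), μ.real (A i) =
        ∏ i ∈ Finset.range (k + 1), μ.real (R^[s i] ⁻¹' A i) :=
      prod_congr rfl fun i _ => ((hR.iterate (s i)).measureReal_preimage (hA i).1.nullMeasurableSet).symm
    rw [e3]
    exact (prod_diff (fun i => hRm (s i) (hA i).1) hBm).trans hsum
  show |μ.real (⋂ i ∈ Finset.range (k + 1), (R ∘ S)^[s i] ⁻¹' A i) - ∏ i ∈ Finset.range (k + 1), μ.real (A i)| < ε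
  rw [e2]
  rw [abs_lt] at h1 ⊢
  rw [abs_le] at h2 h3
  constructor <;> linarith [h1.1, h1.2, h2.1, h2.2, h3.1, h3.2]

end Pool.Agent.W42.RG
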